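import Mathlib

universe u

namespace Pool.Agent.Results.MP_3364cd_gt.CmpCubeOpenFace

open Set Topology

/-! Sign extension lemma and the abstract stage lemma. -/

section Sign

variable {E : Type*} [TopologicalSpace E]

/-- Change a continuous function off a closed set so that it gets prescribed signs. -/
lemma sign_extend [NormalSpace E] {X₀ A B : Set E} (hX : IsClosed X₀) (hA : IsClosed A)
    (hB : IsClosed B) (hAB : Disjoint A B) (g : C(E, ℝ)) (hgA : ∀ x ∈ X₀, x ∈ A → 0 < g x)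
    (hgB : ∀ x ∈ X₀, x ∈ B → g x < 0) :
    ∃ f : C(E, ℝ), (∀ x ∈ X₀, f x = g x) ∧ (∀ x ∈ A, 0 < f x) ∧ (∀ x ∈ B, f x < 0) := by
  have hA' : IsClosed (A ∩ {x | g x ≤ 0}) :=
    hA.inter (isClosed_le g.continuous continuous_const)
  have hB' : IsClosed (B ∩ {x | 0 ≤ g x}) :=
    hB.inter (isClosed_le continuous_const g.continuous)
  have hd1 : Disjoint (X₀ ∪ B) (A ∩ {x | g x ≤ 0}) := by
    rw [Set.disjoint_left]
    rintro x (hx | hx) ⟨hxA, hxg⟩
    · exact absurd (hgA x hx hxA) (not_lt.mpr hxg)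
    · exact (Set.disjoint_left.mp hAB) hxA hx
  have hd2 : Disjoint (X₀ ∪ A) (B ∩ {x | 0 ≤ g x}) := by
    rw [Set.disjoint_left]
    rintro x (hx | hx) ⟨hxB, hxg⟩
    · exact absurd (hgB x hx hxB) (not_lt.mpr hxg)
    · exact (Set.disjoint_left.mp hAB) hx hxB
  obtain ⟨φ, hφ0, hφ1, hφI⟩ := exists_continuous_zero_one_of_isClosed (hX.union hB) hA' hd1
  obtain ⟨ψ, hψ0, hψ1, hψI⟩ := exists_continuous_zero_one_of_isClosed (hX.union hA) hB' hd2
  refine ⟨⟨fun x => g x + φ x * (|g x| + 1) - ψ x * (|g x| + 1), by fun_prop⟩, ?_, ?_, ?_⟩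
  · intro x hx
    have h1 : φ x = 0 := hφ0 (Or.inl hx)
    have h2 : ψ x = 0 := hψ0 (Or.inl hx)
    simp [h1, h2]
  · intro x hx
    have h2 : ψ x = 0 := hψ0 (Or.inr hx)
    show 0 < g x + φ x * (|g x| + 1) - ψ x * (|g x| + 1)
    rw [h2]
    by_cases hg : g x ≤ 0
    · have h1 : φ x = 1 := hφ1 ⟨hx, hg⟩
      rw [h1, abs_of_nonpos hg]
      linarith
    · have h0 := (hφI x).1
      have h3 : 0 ≤ φ x * (|g x| + 1) := mul_nonneg h0 (by positivity)
      push Not at hg
      linarith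
  · intro x hx
    have h2 : φ x = 0 := hφ0 (Or.inr hx)
    show g x + φ x * (|g x| + 1) - ψ x * (|g x| + 1) < 0
    rw [h2]
    by_cases hg : 0 ≤ g x
    · have h1 : ψ x = 1 := hψ1 ⟨hx, hg⟩
      rw [h1, abs_of_nonneg hg]
      linarith
    · have h0 := (hψI x).1
      have h3 : 0 ≤ ψ x * (|g x| + 1) := mul_nonneg h0 (by positivity)
      push Not at hg
      linarith

end Sign

section Stage

variable {E : Type*} {ι : Type*} [LinearOrder ι]

/-- number of walls with smaller index through a point -/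
noncomputable def cnt (W : ι → Set E) (b : ι) (x : E) : ℕ := {u | u < b ∧ x ∈ W u}.ncard

/-- the sign condition for a pair of indices at a point -/
def PairGood (W : ι → Set E) (lam : ι → ι → ℕ) (sg : ι → ι → Prop) (h : ι → E → ℝ)
    (b s : ι) (x : E) : Prop :=
  x ∈ W b → x ∈ W s → lam b s ≤ cnt W b x → h s x = 0 →
    (sg b s → 0 < h b x) ∧ (¬ sg b s → h b x < 0)

variable [TopologicalSpace E]

lemma isClosed_cnt {W : ι → Set E} {X : Set E} (hX : IsClosed X) {T : Finset ι}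
    (hT : ∀ s, s ∉ T → W s ∩ X = ∅) (hW : ∀ s, IsClosed (W s ∩ X)) (b : ι) (l : ℕ) :
    IsClosed {x | x ∈ X ∧ l ≤ cnt W b x} := by
  classical
  have key : {x | x ∈ X ∧ l ≤ cnt W b x} =
      ⋃ S ∈ (T.powerset.filter (fun S => (∀ u ∈ S, u < b) ∧ l ≤ S.card)),
        (X ∩ ⋂ u ∈ S, (W u ∩ X)) := by
    ext x
    simp only [mem_ofPred_eq, mem_iUnion, Finset.mem_filter, Finset.mem_powerset, exists_prop,
      mem_inter_iff, mem_iInter]
    constructor
    · rintro ⟨hx, hl⟩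
      have hfin : {u | u < b ∧ x ∈ W u} ⊆ (T : Set ι) := by
        rintro u ⟨-, hu⟩
        by_contra hc
        have := hT u hc
        have h2 : x ∈ W u ∩ X := ⟨hu, hx⟩
        rw [this] at h2
        exact h2
      refine ⟨T.filter (fun u => u < b ∧ x ∈ W u), ⟨Finset.filter_subset _ _, ?_, ?_⟩, hx, ?_⟩
      · intro u hu
        exact (Finset.mem_filter.mp hu).2.1
      · have : {u | u < b ∧ x ∈ W u} =
            ((T.filter (fun u => u < b ∧ x ∈ W u) : Finset ι) : Set ι) := by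
          ext u
          simp only [mem_ofPred_eq, Finset.coe_filter]
          exact ⟨fun hu => ⟨hfin hu, hu⟩, fun hu => hu.2⟩
        unfold cnt at hl
        rw [this, Set.ncard_coe_finset] at hl
        exact hl
      · intro u hu
        exact ⟨(Finset.mem_filter.mp hu).2.2, hx⟩
    · rintro ⟨S, ⟨hST, hSb, hl⟩, hx, hS⟩
      refine ⟨hx, ?_⟩
      have hfin : {u | u < b ∧ x ∈ W u} ⊆ (T : Set ι) := by
        rintro u ⟨-, hu⟩
        by_contra hc
        have := hT u hc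
        have h2 : x ∈ W u ∩ X := ⟨hu, hx⟩
        rw [this] at h2
        exact h2
      have hsub : (S : Set ι) ⊆ {u | u < b ∧ x ∈ W u} := fun u hu => ⟨hSb u hu, (hS u hu).1⟩
      have := Set.ncard_le_ncard hsub (T.finite_toSet.subset hfin)
      rw [Set.ncard_coe_finset] at this
      exact hl.trans this
  rw [key]
  apply Set.Finite.isClosed_biUnion (Finset.finite_toSet _)
  intro S _
  exact hX.inter (isClosed_biInter (fun u _ => hW u))

/-- Relative stage lemma. -/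
theorem stage [NormalSpace E] {A B W : ι → Set E} {lam : ι → ι → ℕ} {sg : ι → ι → Prop}
    (hA : ∀ s, IsClosed (A s)) (hB : ∀ s, IsClosed (B s)) (hAB : ∀ s, Disjoint (A s) (B s))
    {X₀ X₁ : Set E} (hX₀ : IsClosed X₀) (hX₁ : IsClosed X₁) {T : Finset ι}
    (hT : ∀ s, s ∉ T → W s ∩ X₁ = ∅) (hW : ∀ s, IsClosed (W s ∩ X₁)) (_hX01 : X₀ ⊆ X₁)
    (H2 : ∀ b s' s, b < s' → s' < s → ∀ x ∈ X₁, x ∈ W b → x ∈ W s' → x ∈ W s →
      lam b s ≤ cnt W b x → lam b s' ≤ cnt W b x → ¬ (sg b s ↔ sg b s') → lam s' s ≤ cnt W s' x)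
    (H3 : ∀ b s, b < s → ∀ x ∈ X₁, x ∈ W b → x ∈ W s → lam b s ≤ cnt W b x → x ∉ A s → x ∉ B s →
      (x ∈ A b → sg b s) ∧ (x ∈ B b → ¬ sg b s))
    (g : ι → C(E, ℝ)) (hgA : ∀ s, ∀ x ∈ A s, 0 < g s x) (hgB : ∀ s, ∀ x ∈ B s, g s x < 0)
    (hg : ∀ b s, b < s → ∀ x ∈ X₀, PairGood W lam sg (fun s => g s) b s x) :
    ∃ h : ι → C(E, ℝ), (∀ s, ∀ x ∈ X₀, h s x = g s x) ∧ (∀ s, ∀ x ∈ A s, 0 < h s x) ∧
      (∀ s, ∀ x ∈ B s, h s x < 0) ∧
      ∀ b s, b < s → ∀ x ∈ X₁, PairGood W lam sg (fun s => h s) b s x := by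
  classical
  -- process finite sets from the top
  have main : ∀ T' : Finset ι, ∃ h : ι → C(E, ℝ), (∀ s, ∀ x ∈ X₀, h s x = g s x) ∧
      (∀ s, ∀ x ∈ A s, 0 < h s x) ∧ (∀ s, ∀ x ∈ B s, h s x < 0) ∧
      ∀ b ∈ T', ∀ s ∈ T', b < s → ∀ x ∈ X₁, PairGood W lam sg (fun s => h s) b s x := by
    intro T'
    induction T' using Finset.induction_on_min with
    | empty => exact ⟨g, fun s x _ => rfl, hgA, hgB, by simp⟩
    | insert a T' hlt ih =>
      obtain ⟨h, h0, h1, h2, h3⟩ := ih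
      -- the closed sets carrying constraints
      let F : ι → Set E := fun s =>
        {x | x ∈ X₁ ∧ x ∈ W a ∧ x ∈ W s ∧ lam a s ≤ cnt W a x ∧ h s x = 0}
      have hF : ∀ s, IsClosed (F s) := by
        intro s
        have e : F s = (W a ∩ X₁) ∩ (W s ∩ X₁) ∩ {x | x ∈ X₁ ∧ lam a s ≤ cnt W a x} ∩
            {x | h s x = 0} := by
          ext x
          simp only [F, mem_ofPred_eq, mem_inter_iff]
          tauto
        rw [e]
        exact (((hW a).inter (hW s)).inter (isClosed_cnt hX₁ hT hW a _)).inter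
          (isClosed_eq (h s).continuous continuous_const)
      let P : Set E := A a ∪ ⋃ s ∈ T'.filter (fun s => sg a s), F s
      let N : Set E := B a ∪ ⋃ s ∈ T'.filter (fun s => ¬ sg a s), F s
      have hP : IsClosed P :=
        (hA a).union (Set.Finite.isClosed_biUnion (Finset.finite_toSet _) (fun s _ => hF s))
      have hN : IsClosed N :=
        (hB a).union (Set.Finite.isClosed_biUnion (Finset.finite_toSet _) (fun s _ => hF s))
      have hFAB : ∀ s ∈ T', ∀ x ∈ F s, (x ∈ A a → sg a s) ∧ (x ∈ B a → ¬ sg a s) := by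
        intro s hs x hx
        obtain ⟨hx1, hxa, hxs, hl, hz⟩ := hx
        refine H3 a s (hlt s hs) x hx1 hxa hxs hl ?_ ?_
        · intro hc
          have := h1 s x hc
          rw [hz] at this
          exact lt_irrefl _ this
        · intro hc
          have := h2 s x hc
          rw [hz] at this
          exact lt_irrefl _ this
      have hFF : ∀ s ∈ T', ∀ s' ∈ T', sg a s → ¬ sg a s' → ∀ x, x ∈ F s → x ∉ F s' := by
        intro s hs s' hs' hsg hsg' x hx hx'
        obtain ⟨hx1, hxa, hxs, hl, hz⟩ := hx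
        obtain ⟨-, -, hxs', hl', hz'⟩ := hx'
        rcases lt_trichotomy s s' with hlt' | heq | hlt'
        · have hl2 := H2 a s s' (hlt s hs) hlt' x hx1 hxa hxs hxs' hl' hl (by tauto)
          have := h3 s hs s' hs' hlt' x hx1 hxs hxs' hl2 hz'
          by_cases hh : sg s s'
          · have h5 := this.1 hh
            simp only [hz] at h5
            exact lt_irrefl _ h5
          · have h5 := this.2 hh
            simp only [hz] at h5
            exact lt_irrefl _ h5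
        · rw [heq] at hsg
          exact hsg' hsg
        · have hl2 := H2 a s' s (hlt s' hs') hlt' x hx1 hxa hxs' hxs hl hl' (by tauto)
          have := h3 s' hs' s hs hlt' x hx1 hxs' hxs hl2 hz
          by_cases hh : sg s' s
          · have h5 := this.1 hh
            simp only [hz'] at h5
            exact lt_irrefl _ h5
          · have h5 := this.2 hh
            simp only [hz'] at h5
            exact lt_irrefl _ h5
      have hPN : Disjoint P N := by
        rw [Set.disjoint_left]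
        intro x hxP hxN
        rcases hxP with hxP | hxP
        · rcases hxN with hxN | hxN
          · exact (Set.disjoint_left.mp (hAB a)) hxP hxN
          · simp only [mem_iUnion, Finset.mem_filter, exists_prop] at hxN
            obtain ⟨s, ⟨hs, hsg⟩, hxF⟩ := hxN
            exact hsg ((hFAB s hs x hxF).1 hxP)
        · simp only [mem_iUnion, Finset.mem_filter, exists_prop] at hxP
          obtain ⟨s, ⟨hs, hsg⟩, hxF⟩ := hxP
          rcases hxN with hxN | hxN
          · exact (hFAB s hs x hxF).2 hxN hsg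
          · simp only [mem_iUnion, Finset.mem_filter, exists_prop] at hxN
            obtain ⟨s', ⟨hs', hsg'⟩, hxF'⟩ := hxN
            exact hFF s hs s' hs' hsg hsg' x hxF hxF'
      -- signs on `X₀`
      have hold : ∀ s ∈ T', ∀ x ∈ X₀, x ∈ F s →
          (sg a s → 0 < h a x) ∧ (¬ sg a s → h a x < 0) := by
        intro s hs x hx0 hx
        obtain ⟨hx1, hxa, hxs, hl, hz⟩ := hx
        have := hg a s (hlt s hs) x hx0 hxa hxs hl (by
          show g s x = 0
          rw [← h0 s x hx0, hz])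
        simp only [← h0 a x hx0] at this
        exact this
      obtain ⟨f, f0, f1, f2⟩ := sign_extend hX₀ hP hN hPN (h a)
        (by
          intro x hx0 hxP
          rcases hxP with hxP | hxP
          · exact h1 a x hxP
          · simp only [mem_iUnion, Finset.mem_filter, exists_prop] at hxP
            obtain ⟨s, ⟨hs, hsg⟩, hxF⟩ := hxP
            exact (hold s hs x hx0 hxF).1 hsg)
        (by
          intro x hx0 hxP
          rcases hxP with hxP | hxP
          · exact h2 a x hxP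
          · simp only [mem_iUnion, Finset.mem_filter, exists_prop] at hxP
            obtain ⟨s, ⟨hs, hsg⟩, hxF⟩ := hxP
            exact (hold s hs x hx0 hxF).2 hsg)
      have haT : a ∉ T' := fun hc => lt_irrefl _ (hlt a hc)
      have hne : ∀ s ∈ T', s ≠ a := fun s hs => (hlt s hs).ne'
      refine ⟨Function.update h a f, ?_, ?_, ?_, ?_⟩
      · intro s x hx
        by_cases hs : s = a
        · subst hs
          rw [Function.update_self, f0 x hx, h0 s x hx]
        · rw [Function.update_of_ne hs, h0 s x hx]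
      · intro s x hx
        by_cases hs : s = a
        · subst hs
          rw [Function.update_self]
          exact f1 x (Or.inl hx)
        · rw [Function.update_of_ne hs]
          exact h1 s x hx
      · intro s x hx
        by_cases hs : s = a
        · subst hs
          rw [Function.update_self]
          exact f2 x (Or.inl hx)
        · rw [Function.update_of_ne hs]
          exact h2 s x hx
      · intro b hb s hs hbs x hx
        have hsT : s ∈ T' := by
          rcases Finset.mem_insert.mp hs with hs | hs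
          · exfalso
            rcases Finset.mem_insert.mp hb with hb | hb
            · rw [hb, hs] at hbs
              exact lt_irrefl _ hbs
            · rw [hs] at hbs
              exact lt_asymm hbs (hlt b hb)
          · exact hs
        intro hxb hxs hl hz
        simp only [Function.update_of_ne (hne s hsT)] at hz
        rcases Finset.mem_insert.mp hb with hb | hb
        · subst hb
          simp only [Function.update_self]
          have hxF : x ∈ F s := ⟨hx, hxb, hxs, hl, hz⟩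
          constructor
          · intro hsg
            apply f1
            right
            simp only [mem_iUnion, Finset.mem_filter, exists_prop]
            exact ⟨s, ⟨hsT, hsg⟩, hxF⟩
          · intro hsg
            apply f2
            right
            simp only [mem_iUnion, Finset.mem_filter, exists_prop]
            exact ⟨s, ⟨hsT, hsg⟩, hxF⟩
        · simp only [Function.update_of_ne (hne b hb)]
          exact h3 b hb s hsT hbs x hx hxb hxs hl hz
  obtain ⟨h, h0, h1, h2, h3⟩ := main T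
  refine ⟨h, h0, h1, h2, ?_⟩
  intro b s hbs x hx hxb hxs hl hz
  have hbT : b ∈ T := by
    by_contra hc
    have := hT b hc
    have h5 : x ∈ W b ∩ X₁ := ⟨hxb, hx⟩
    rw [this] at h5
    exact h5
  have hsT : s ∈ T := by
    by_contra hc
    have := hT s hc
    have h5 : x ∈ W s ∩ X₁ := ⟨hxs, hx⟩
    rw [this] at h5
    exact h5
  exact h3 b hbT s hsT hbs x hx hxb hxs hl hz

end Stage

section

/-! Passing to the limit in the stage lemma. -/

variable {E : Type*} {ι : Type*} [LinearOrder ι] [TopologicalSpace E]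

theorem limit [NormalSpace E] {A B W : ι → Set E} {lam : ι → ι → ℕ} {sg : ι → ι → Prop}
    (hA : ∀ s, IsClosed (A s)) (hB : ∀ s, IsClosed (B s)) (hAB : ∀ s, Disjoint (A s) (B s))
    {X : ℕ → Set E} (hXc : ∀ k, IsClosed (X k)) (hX0 : X 0 = ∅)
    (hmono : ∀ k, X k ⊆ interior (X (k + 1)))
    {T : ℕ → Finset ι} (hT : ∀ k s, s ∉ T k → W s ∩ X k = ∅) (hW : ∀ k s, IsClosed (W s ∩ X k))
    (H2 : ∀ b s' s, b < s' → s' < s → ∀ k, ∀ x ∈ X k, x ∈ W b → x ∈ W s' → x ∈ W s →
      lam b s ≤ cnt W b x → lam b s' ≤ cnt W b x → ¬ (sg b s ↔ sg b s') → lam s' s ≤ cnt W s' x)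
    (H3 : ∀ b s, b < s → ∀ k, ∀ x ∈ X k, x ∈ W b → x ∈ W s → lam b s ≤ cnt W b x →
      x ∉ A s → x ∉ B s → (x ∈ A b → sg b s) ∧ (x ∈ B b → ¬ sg b s))
    (g : ι → C(E, ℝ)) (hgA : ∀ s, ∀ x ∈ A s, 0 < g s x) (hgB : ∀ s, ∀ x ∈ B s, g s x < 0) :
    ∃ h : ι → E → ℝ, (∀ s, ∀ k, ∀ x ∈ X k, ContinuousAt (h s) x) ∧
      (∀ s, ∀ k, ∀ x ∈ X k, x ∈ A s → 0 < h s x) ∧
      (∀ s, ∀ k, ∀ x ∈ X k, x ∈ B s → h s x < 0) ∧
      ∀ b s, b < s → ∀ k, ∀ x ∈ X k, PairGood W lam sg h b s x := by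
  classical
  let Pr : ℕ → (ι → C(E, ℝ)) → Prop := fun k h =>
    (∀ s, ∀ x ∈ A s, 0 < h s x) ∧ (∀ s, ∀ x ∈ B s, h s x < 0) ∧
      ∀ b s, b < s → ∀ x ∈ X k, PairGood W lam sg (fun s => h s) b s x
  have hsub : ∀ k, X k ⊆ X (k + 1) := fun k => (hmono k).trans interior_subset
  have step : ∀ k (h : {h : ι → C(E, ℝ) // Pr k h}), ∃ h' : {h : ι → C(E, ℝ) // Pr (k + 1) h},
      ∀ s, ∀ x ∈ X k, h'.1 s x = h.1 s x := by
    rintro k ⟨h, h1, h2, h3⟩
    obtain ⟨h', e0, e1, e2, e3⟩ := stage hA hB hAB (hXc k) (hXc (k + 1)) (hT (k + 1))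
      (hW (k + 1)) (hsub k)
      (fun b s' s hb hs x hx => H2 b s' s hb hs (k + 1) x hx)
      (fun b s hb x hx => H3 b s hb (k + 1) x hx) h h1 h2 h3
    exact ⟨⟨h', e1, e2, e3⟩, e0⟩
  have start : Pr 0 g := ⟨hgA, hgB, fun b s _ x hx => by rw [hX0] at hx; exact absurd hx (by simp)⟩
  choose nxt hnxt using step
  let G : ∀ k, {h : ι → C(E, ℝ) // Pr k h} := fun k => Nat.rec ⟨g, start⟩ (fun k h => nxt k h) k
  have hG : ∀ k s, ∀ x ∈ X k, (G (k + 1)).1 s x = (G k).1 s x := fun k s x hx =>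
    hnxt k (G k) s x hx
  have hmonoX : ∀ k j, X k ⊆ X (k + j) := by
    intro k j
    induction j with
    | zero => exact subset_rfl
    | succ j ih => exact ih.trans (hsub (k + j))
  have hG2 : ∀ k j s, ∀ x ∈ X k, (G (k + j)).1 s x = (G k).1 s x := by
    intro k j
    induction j with
    | zero => intro s x _; rfl
    | succ j ih =>
      intro s x hx
      rw [← ih s x hx]
      exact hG (k + j) s x (hmonoX k j hx)
  let H : ι → E → ℝ := fun s x => if hx : ∃ k, x ∈ X k then (G (Nat.find hx)).1 s x else 0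
  have hH : ∀ k s, ∀ x ∈ X k, H s x = (G k).1 s x := by
    intro k s x hx
    have hex : ∃ k, x ∈ X k := ⟨k, hx⟩
    have h1 : H s x = (G (Nat.find hex)).1 s x := by
      simp only [H, dif_pos hex]
    rw [h1]
    have h2 : Nat.find hex ≤ k := Nat.find_min' hex hx
    obtain ⟨j, rfl⟩ := Nat.exists_eq_add_of_le h2
    exact (hG2 (Nat.find hex) j s x (Nat.find_spec hex)).symm
  refine ⟨H, ?_, ?_, ?_, ?_⟩
  · intro s k x hx
    have h1 : H s =ᶠ[𝓝 x] (G (k + 1)).1 s := by
      filter_upwards [mem_interior_iff_mem_nhds.mp (hmono k hx)] with y hy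
      exact hH (k + 1) s y hy
    exact (ContinuousAt.congr ((G (k + 1)).1 s).continuous.continuousAt h1.symm)
  · intro s k x hx hxA
    rw [hH k s x hx]
    exact (G k).2.1 s x hxA
  · intro s k x hx hxB
    rw [hH k s x hx]
    exact (G k).2.2.1 s x hxB
  · intro b s hbs k x hx hxb hxs hl hz
    rw [hH k b x hx]
    rw [hH k s x hx] at hz
    exact (G k).2.2.2 b s hbs x hx hxb hxs hl hz

end

/-! The tree of balls. -/

/-- length of the common initial part of two lists -/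
def cp : List ℕ → List ℕ → ℕ
  | a :: l, b :: l' => if a = b then cp l l' + 1 else 0
  | _, _ => 0

lemma cp_nil_left (l : List ℕ) : cp [] l = 0 := by
  cases l <;> rfl

lemma cp_nil_right (l : List ℕ) : cp l [] = 0 := by
  cases l <;> rfl

lemma cp_cons (a b : ℕ) (l l' : List ℕ) :
    cp (a :: l) (b :: l') = if a = b then cp l l' + 1 else 0 := rfl

lemma cp_self : ∀ l : List ℕ, cp l l = l.length := by
  intro l
  induction l with
  | nil => rfl
  | cons a l ih => simp [cp_cons, ih]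

lemma cp_comm : ∀ l l' : List ℕ, cp l l' = cp l' l := by
  intro l
  induction l with
  | nil => intro l'; rw [cp_nil_left, cp_nil_right]
  | cons a l ih =>
    intro l'
    cases l' with
    | nil => rw [cp_nil_left, cp_nil_right]
    | cons b l' =>
      simp only [cp_cons, ih l']
      by_cases h : a = b
      · simp [h]
      · simp [h, Ne.symm h]

lemma cp_ultra : ∀ l l' l'' : List ℕ, min (cp l l') (cp l' l'') ≤ cp l l'' := by
  intro l
  induction l with
  | nil => intro l' l''; simp [cp_nil_left]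
  | cons a l ih =>
    intro l' l''
    cases l' with
    | nil => simp [cp_nil_left, cp_nil_right]
    | cons b l' =>
      cases l'' with
      | nil => simp [cp_nil_right]
      | cons c l'' =>
        simp only [cp_cons]
        by_cases h : a = b
        · by_cases h' : b = c
          · have h'' : a = c := h.trans h'
            simp only [h, h', if_true]
            have := ih l' l''
            omega
          · simp [h']
        · simp [h]

/-- A finite tree of balls of depth `k` over the ball with centre `c` and radius `R`. -/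
structure Block {M : Type*} [PseudoMetricSpace M] (k : ℕ) (ε : ℝ) (c : M) (R : ℝ)
    (T : Finset (List ℕ)) (q : List ℕ → M) (r : List ℕ → ℝ) : Prop where
  len : ∀ a ∈ T, a.length = k
  rpos : ∀ a ∈ T, 0 < r a
  rle : ∀ a ∈ T, r a ≤ R
  clus : ∀ s ∈ T, ∀ s' ∈ T, 1 ≤ cp s s' → dist (q s) (q s') + 2 * r s + 2 * r s' ≤ ε
  whole : ∀ s ∈ T, dist (q s) c + 2 * r s ≤ 2 * R + ε
  d1 : ∀ b ∈ T, ∀ s ∈ T, ∀ s' ∈ T, b < s → b < s' → cp b s + 2 ≤ cp s s' →
    dist (q s) (q s') + 2 * r s + 2 * r s' ≤ r b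
  cover : ∀ x, dist x c < R → ∃ a ∈ T, dist x (q a) < r a

section

variable {M : Type*} [PseudoMetricSpace M]

/-- Choose blocks one after the other, each one much finer than all the previous ones. -/
lemma concat {k : ℕ}
    (Hk : ∀ ε : ℝ, 0 < ε → ∀ c : M, ∀ R : ℝ, 0 < R → ∃ T q r, Block k ε c R T q r)
    (c : ℕ → M) (R : ℕ → ℝ) (hR : ∀ j, 0 < R j) {ε : ℝ} (hε : 0 < ε) :
    ∃ (δ : ℕ → ℝ) (T : ℕ → Finset (List ℕ)) (q : ℕ → List ℕ → M) (r : ℕ → List ℕ → ℝ),
      (∀ j, 0 < δ j ∧ δ j ≤ ε ∧ Block k (δ j) (c j) (R j) (T j) (q j) (r j)) ∧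
      ∀ i j, i < j → ∀ b ∈ T i, δ j ≤ r i b := by
  have Hk' : ∀ (j : ℕ) (e : {e : ℝ // 0 < e}), ∃ T q r, Block k e.1 (c j) (R j) T q r :=
    fun j e => Hk e.1 e.2 (c j) (R j) (hR j)
  choose T q r hB using Hk'
  have Hd : ∀ (j : ℕ) (e : {e : ℝ // 0 < e}), ∃ e' : {e : ℝ // 0 < e}, e'.1 ≤ e.1 ∧
      ∀ b ∈ T j e, e'.1 ≤ r j e b := by
    intro j e
    have hpos : ∃ e' : ℝ, 0 < e' ∧ ∀ y ∈ insert e.1 ((T j e).image (r j e)), e' ≤ y := by
      have hne : (insert e.1 ((T j e).image (r j e))).Nonempty := Finset.insert_nonempty _ _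
      refine ⟨(insert e.1 ((T j e).image (r j e))).min' hne, ?_, fun y hy => Finset.min'_le _ _ hy⟩
      have := Finset.min'_mem _ hne
      rcases Finset.mem_insert.mp this with h | h
      · rw [h]; exact e.2
      · obtain ⟨a, ha, hae⟩ := Finset.mem_image.mp h
        rw [← hae]
        exact (hB j e).rpos a ha
    obtain ⟨e', he', hall⟩ := hpos
    exact ⟨⟨e', he'⟩, hall _ (Finset.mem_insert_self _ _), fun b hb =>
      hall _ (Finset.mem_insert_of_mem (Finset.mem_image_of_mem _ hb))⟩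
  choose nx hnx1 hnx2 using Hd
  let D : ℕ → {e : ℝ // 0 < e} := fun j => Nat.rec ⟨ε, hε⟩ (fun j e => nx j e) j
  have hD : ∀ j, (D (j + 1)).1 ≤ (D j).1 := fun j => hnx1 j (D j)
  have hanti : ∀ i j, i ≤ j → (D j).1 ≤ (D i).1 := by
    intro i j hij
    induction j, hij using Nat.le_induction with
    | base => exact le_rfl
    | succ j _ ih => exact (hD j).trans ih
  refine ⟨fun j => (D j).1, fun j => T j (D j), fun j => q j (D j), fun j => r j (D j), ?_, ?_⟩
  · intro j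
    exact ⟨(D j).2, hanti 0 j (Nat.zero_le _), hB j (D j)⟩
  · intro i j hij b hb
    exact (hanti (i + 1) j hij).trans (hnx2 i (D i) b hb)

/-- combine functions on sub-blocks -/
def comb {β : Type*} (d : β) (f : ℕ → List ℕ → β) : List ℕ → β
  | [] => d
  | j :: a => f j a

lemma comb_cons {β : Type*} (d : β) (f : ℕ → List ℕ → β) (j : ℕ) (a : List ℕ) :
    comb d f (j :: a) = f j a := rfl

lemma comb_d1 {k : ℕ} {c : ℕ → M} {R : ℕ → ℝ} {δ : ℕ → ℝ} {T : ℕ → Finset (List ℕ)}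
    {q : ℕ → List ℕ → M} {r : ℕ → List ℕ → ℝ}
    (hB : ∀ j, Block k (δ j) (c j) (R j) (T j) (q j) (r j))
    (hδ : ∀ i j, i < j → ∀ b ∈ T i, δ j ≤ r i b) (d : M) (e : ℝ)
    {ib is is' : ℕ} {b s s' : List ℕ} (hb : b ∈ T ib) (hs : s ∈ T is) (hs' : s' ∈ T is')
    (hbs : ib :: b < is :: s) (hbs' : ib :: b < is' :: s')
    (hcp : cp (ib :: b) (is :: s) + 2 ≤ cp (is :: s) (is' :: s')) :
    dist (comb d q (is :: s)) (comb d q (is' :: s')) + 2 * comb e r (is :: s) +
      2 * comb e r (is' :: s') ≤ comb e r (ib :: b) := by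
  simp only [comb_cons]
  have h1 : is = is' := by
    by_contra hne
    rw [cp_cons is is', if_neg hne] at hcp
    omega
  subst h1
  rw [cp_cons is is, if_pos rfl] at hcp
  rw [List.cons_lt_cons_iff] at hbs hbs'
  by_cases h2 : ib = is
  · subst h2
    rw [cp_cons, if_pos rfl] at hcp
    have e1 : b < s := by
      rcases hbs with h | h
      · exact absurd h (lt_irrefl _)
      · exact h.2
    have e2 : b < s' := by
      rcases hbs' with h | h
      · exact absurd h (lt_irrefl _)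
      · exact h.2
    exact (hB ib).d1 b hb s hs s' hs' e1 e2 (by omega)
  · have h3 : ib < is := by
      rcases hbs with h | h
      · exact h
      · exact absurd h.1 h2
    have h4 : 1 ≤ cp s s' := by omega
    exact ((hB is).clus s hs s' hs' h4).trans (hδ ib is h3 b hb)

/-- Existence of finite trees. -/
theorem exists_block [ProperSpace M] : ∀ k : ℕ, ∀ ε : ℝ, 0 < ε → ∀ c : M, ∀ R : ℝ, 0 < R →
    ∃ T q r, Block k ε c R T q r := by
  intro k
  induction k with
  | zero =>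
    intro ε hε c R hR
    refine ⟨{[]}, fun _ => c, fun _ => R, ?_⟩
    constructor
    · intro a ha; simp only [Finset.mem_singleton] at ha; rw [ha]; rfl
    · intro a _; exact hR
    · intro a _; exact le_rfl
    · intro s hs s' _ h
      simp only [Finset.mem_singleton] at hs
      rw [hs, cp_nil_left] at h
      omega
    · intro s _
      rw [dist_self]
      linarith
    · intro b _ s hs s' _ _ _ h
      simp only [Finset.mem_singleton] at hs
      rw [hs, cp_nil_left] at h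
      omega
    · intro x hx
      exact ⟨[], by simp, hx⟩
  | succ k ih =>
    intro ε hε c R hR
    -- a finite cover by small balls
    have hR' : 0 < min (R / 2) (ε / 16) := by positivity
    obtain ⟨t, htc, htcov⟩ := (isCompact_closedBall c R).elim_nhds_subcover
      (fun x => Metric.ball x (min (R / 2) (ε / 16))) (fun x _ => Metric.ball_mem_nhds x hR')
    let L := t.toList
    let C : ℕ → M := fun j => L.getD j c
    have hCc : ∀ j, dist (C j) c ≤ R := by
      intro j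
      by_cases hj : j < L.length
      · have h1 : C j = L[j] := by simp [C, List.getD, hj]
        have h2 : C j ∈ t := by
          rw [h1, ← Finset.mem_toList]
          exact List.getElem_mem hj
        exact Metric.mem_closedBall.mp (htc _ h2)
      · have h1 : C j = c := by
          simp only [C]
          exact List.getD_eq_default _ _ (by omega)
        rw [h1, dist_self]
        exact hR.le
    obtain ⟨δ, T, q, r, hB, hδ⟩ := concat ih C (fun _ => min (R / 2) (ε / 16)) (fun _ => hR')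
      (ε := ε / 8) (by positivity)
    have hm1 : min (R / 2) (ε / 16) ≤ R / 2 := min_le_left _ _
    have hm2 : min (R / 2) (ε / 16) ≤ ε / 16 := min_le_right _ _
    refine ⟨(Finset.range L.length).biUnion (fun j => (T j).image (fun a => j :: a)),
      comb c q, comb 1 r, ?_⟩
    have hmem : ∀ a, a ∈ (Finset.range L.length).biUnion
        (fun j => (T j).image (fun a => j :: a)) → ∃ j a', j < L.length ∧ a' ∈ T j ∧ a = j :: a' := by
      intro a ha
      simp only [Finset.mem_biUnion, Finset.mem_range, Finset.mem_image] at ha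
      obtain ⟨j, hj, a', ha', rfl⟩ := ha
      exact ⟨j, a', hj, ha', rfl⟩
    constructor
    · intro a ha
      obtain ⟨j, a', hj, ha', rfl⟩ := hmem a ha
      simp [(hB j).2.2.len a' ha']
    · intro a ha
      obtain ⟨j, a', hj, ha', rfl⟩ := hmem a ha
      exact (hB j).2.2.rpos a' ha'
    · intro a ha
      obtain ⟨j, a', hj, ha', rfl⟩ := hmem a ha
      exact ((hB j).2.2.rle a' ha').trans (by linarith)
    · intro s hs s' hs' hcp
      obtain ⟨j, a, hj, ha, rfl⟩ := hmem s hs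
      obtain ⟨j', a', hj', ha', rfl⟩ := hmem s' hs'
      have h1 : j = j' := by
        by_contra hne
        rw [cp_cons, if_neg hne] at hcp
        omega
      subst h1
      simp only [comb_cons]
      have w1 := (hB j).2.2.whole a ha
      have w2 := (hB j).2.2.whole a' ha'
      have w3 := (hB j).2.1
      have w4 := dist_triangle_right (q j a) (q j a') (C j)
      linarith
    · intro s hs
      obtain ⟨j, a, hj, ha, rfl⟩ := hmem s hs
      simp only [comb_cons]
      have w1 := (hB j).2.2.whole a ha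
      have w3 := (hB j).2.1
      have w4 := dist_triangle (q j a) (C j) c
      have w5 := hCc j
      linarith
    · intro b hb s hs s' hs' h1 h2 h3
      obtain ⟨jb, b', hjb, hb', rfl⟩ := hmem b hb
      obtain ⟨j, a, hj, ha, rfl⟩ := hmem s hs
      obtain ⟨j', a', hj', ha', rfl⟩ := hmem s' hs'
      exact comb_d1 (fun j => (hB j).2.2) hδ c 1 hb' ha ha' h1 h2 h3
    · intro x hx
      have h1 : x ∈ Metric.closedBall c R := Metric.mem_closedBall.mpr hx.le
      have h2 := htcov h1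
      simp only [mem_iUnion, Metric.mem_ball, exists_prop] at h2
      obtain ⟨y, hy, hxy⟩ := h2
      obtain ⟨j, hj, hjy⟩ := List.getElem_of_mem (Finset.mem_toList.mpr hy)
      have h3 : C j = y := by
        have : C j = L[j] := List.getD_eq_getElem _ _ hj
        rw [this]
        exact hjy
      rw [← h3] at hxy
      obtain ⟨a, ha, hxa⟩ := (hB j).2.2.cover x hxy
      refine ⟨j :: a, ?_, hxa⟩
      simp only [Finset.mem_biUnion, Finset.mem_range, Finset.mem_image]
      exact ⟨j, hj, a, ha, rfl⟩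

/-- The infinite design. -/
theorem exists_design [ProperSpace M] (m : ℕ) {ρ : ℝ} (hρ : 0 < ρ) (c : ℕ → M) (R : ℕ → ℝ)
    (hR : ∀ j, 0 < R j) (hR8 : ∀ j, R j ≤ ρ / 8) :
    ∃ (T : Set (List ℕ)) (q : List ℕ → M) (r : List ℕ → ℝ),
      (∀ a ∈ T, a.length = m + 1) ∧ (∀ a ∈ T, 0 < r a) ∧
      (∀ s ∈ T, ∀ s' ∈ T, 1 ≤ cp s s' → dist (q s) (q s') + 2 * r s + 2 * r s' ≤ ρ) ∧
      (∀ b ∈ T, ∀ s ∈ T, ∀ s' ∈ T, b < s → b < s' → cp b s + 2 ≤ cp s s' →
        dist (q s) (q s') + 2 * r s + 2 * r s' ≤ r b) ∧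
      (∀ j, ∀ x, dist x (c j) < R j → ∃ a ∈ T, dist x (q a) < r a ∧ r a ≤ R j) := by
  obtain ⟨δ, T, q, r, hB, hδ⟩ := concat (exists_block (M := M) m) c R hR
    (ε := ρ / 4) (by positivity)
  refine ⟨{l | ∃ j, ∃ a ∈ T j, l = j :: a}, comb (c 0) q, comb 1 r, ?_, ?_, ?_, ?_, ?_⟩
  · rintro _ ⟨j, a, ha, rfl⟩
    simp [(hB j).2.2.len a ha]
  · rintro _ ⟨j, a, ha, rfl⟩
    exact (hB j).2.2.rpos a ha
  · rintro _ ⟨j, a, ha, rfl⟩ _ ⟨j', a', ha', rfl⟩ hcp
    have h1 : j = j' := by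
      by_contra hne
      rw [cp_cons, if_neg hne] at hcp
      omega
    subst h1
    simp only [comb_cons]
    have w1 := (hB j).2.2.whole a ha
    have w2 := (hB j).2.2.whole a' ha'
    have w3 := (hB j).2.1
    have w4 := dist_triangle_right (q j a) (q j a') (c j)
    have w5 := hR8 j
    linarith
  · rintro _ ⟨jb, b, hb, rfl⟩ _ ⟨j, a, ha, rfl⟩ _ ⟨j', a', ha', rfl⟩ h1 h2 h3
    exact comb_d1 (fun j => (hB j).2.2) hδ (c 0) 1 hb ha ha' h1 h2 h3
  · intro j x hx
    obtain ⟨a, ha, hxa⟩ := (hB j).2.2.cover x hx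
    exact ⟨j :: a, ⟨j, a, ha, rfl⟩, hxa, (hB j).2.2.rle a ha⟩

end

section

open Complex

/-- a continuous real function on an interval whose sine never vanishes stays in one
interval of length pi -/
theorem stay_sin {f : ℝ → ℝ} (hf : Continuous f) {a b : ℝ} (hab : a ≤ b)
    (h : ∀ x ∈ Set.Icc a b, Real.sin (f x) ≠ 0) {k : ℤ}
    (ha : f a ∈ Set.Ioo (k * Real.pi) ((k + 1) * Real.pi)) :
    f b ∈ Set.Ioo (k * Real.pi) ((k + 1) * Real.pi) := by
  by_contra hb
  rw [Set.mem_Ioo, not_and_or, not_lt, not_lt] at hb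
  rcases hb with hb | hb
  · have : (k : ℝ) * Real.pi ∈ Set.Icc (f b) (f a) := ⟨hb, ha.1.le⟩
    obtain ⟨x, hx, hfx⟩ := intermediate_value_Icc' hab hf.continuousOn this
    exact h x hx (by rw [hfx]; exact Real.sin_int_mul_pi k)
  · have : ((k + 1 : ℤ) : ℝ) * Real.pi ∈ Set.Icc (f a) (f b) := by
      push_cast
      exact ⟨ha.2.le, hb⟩
    obtain ⟨x, hx, hfx⟩ := intermediate_value_Icc hab hf.continuousOn this
    exact h x hx (by rw [hfx]; exact Real.sin_int_mul_pi _)

theorem miranda {F : ℝ × ℝ → ℂ} (hF : Continuous F) {a b c d : ℝ} (hab : a ≤ b) (hcd : c ≤ d)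
    (h1 : ∀ s ∈ Set.Icc a b, (F (s, c)).re < 0) (h2 : ∀ s ∈ Set.Icc a b, 0 < (F (s, d)).re)
    (h3 : ∀ u ∈ Set.Icc c d, (F (a, u)).im < 0) (h4 : ∀ u ∈ Set.Icc c d, 0 < (F (b, u)).im) :
    ∃ s ∈ Set.Icc a b, ∃ u ∈ Set.Icc c d, F (s, u) = 0 := by
  by_contra hcon
  push Not at hcon
  -- extend by clamping
  let π₁ : ℝ → ℝ := fun s => max a (min s b)
  let π₂ : ℝ → ℝ := fun u => max c (min u d)
  have hπ₁ : ∀ s, π₁ s ∈ Set.Icc a b := fun s =>
    ⟨le_max_left _ _, max_le hab (min_le_right _ _)⟩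
  have hπ₂ : ∀ s, π₂ s ∈ Set.Icc c d := fun s =>
    ⟨le_max_left _ _, max_le hcd (min_le_right _ _)⟩
  have e₁ : ∀ s ∈ Set.Icc a b, π₁ s = s := fun s hs => by
    simp only [π₁]; rw [min_eq_left hs.2, max_eq_right hs.1]
  have e₂ : ∀ s ∈ Set.Icc c d, π₂ s = s := fun s hs => by
    simp only [π₂]; rw [min_eq_left hs.2, max_eq_right hs.1]
  have hc₁ : Continuous π₁ := by fun_prop
  have hc₂ : Continuous π₂ := by fun_prop
  let Fc : C(ℝ × ℝ, ℂ) := ⟨fun p => F (π₁ p.1, π₂ p.2), by fun_prop⟩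
  have hne : ∀ p, Fc p ∈ ({0}ᶜ : Set ℂ) := fun p => by
    simp only [Set.mem_compl_iff, Set.mem_singleton_iff]
    exact hcon _ (hπ₁ _) _ (hπ₂ _)
  -- a lift whose imaginary part at the corner lies in the third quadrant
  obtain ⟨G, ⟨hG0, hG⟩, -⟩ := Complex.isCoveringMapOn_exp.existsUnique_continuousMap_lifts Fc
    (a₀ := (a, c)) (e₀ := Complex.log (Fc (a, c))) (Complex.exp_log (hne _)) hne
  have hGe : ∀ p, Complex.exp (G p) = Fc p := fun p => congrFun hG p
  let θ : ℝ → ℝ → ℝ := fun s u => (G (s, u)).im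
  have hθ : Continuous (fun p : ℝ × ℝ => θ p.1 p.2) := by
    have := G.continuous
    simp only [θ]
    fun_prop
  have re_eq : ∀ s u, (Fc (s, u)).re = Real.exp (G (s, u)).re * Real.cos (θ s u) := by
    intro s u; rw [← hGe, Complex.exp_re]
  have im_eq : ∀ s u, (Fc (s, u)).im = Real.exp (G (s, u)).re * Real.sin (θ s u) := by
    intro s u; rw [← hGe, Complex.exp_im]
  have c1 : ∀ s ∈ Set.Icc a b, Real.cos (θ s c) < 0 := by
    intro s hs
    have h := h1 s hs
    have e : (Fc (s, c)).re = (F (s, c)).re := by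
      change (F (π₁ s, π₂ c)).re = _
      rw [e₁ s hs, e₂ c ⟨le_refl _, hcd⟩]
    rw [← e, re_eq] at h
    by_contra hh
    push Not at hh
    have := mul_nonneg (Real.exp_pos (G (s, c)).re).le hh
    linarith
  have c2 : ∀ s ∈ Set.Icc a b, 0 < Real.cos (θ s d) := by
    intro s hs
    have h := h2 s hs
    have e : (Fc (s, d)).re = (F (s, d)).re := by
      change (F (π₁ s, π₂ d)).re = _
      rw [e₁ s hs, e₂ d ⟨hcd, le_refl _⟩]
    rw [← e, re_eq] at h
    exact (pos_iff_pos_of_mul_pos h).1 (Real.exp_pos _)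
  have c3 : ∀ u ∈ Set.Icc c d, Real.sin (θ a u) < 0 := by
    intro s hs
    have h := h3 s hs
    have e : (Fc (a, s)).im = (F (a, s)).im := by
      change (F (π₁ a, π₂ s)).im = _
      rw [e₂ s hs, e₁ a ⟨le_refl _, hab⟩]
    rw [← e, im_eq] at h
    by_contra hh
    push Not at hh
    have := mul_nonneg (Real.exp_pos (G (a, s)).re).le hh
    linarith
  have c4 : ∀ u ∈ Set.Icc c d, 0 < Real.sin (θ b u) := by
    intro s hs
    have h := h4 s hs
    have e : (Fc (b, s)).im = (F (b, s)).im := by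
      change (F (π₁ b, π₂ s)).im = _
      rw [e₂ s hs, e₁ b ⟨hab, le_refl _⟩]
    rw [← e, im_eq] at h
    exact (pos_iff_pos_of_mul_pos h).1 (Real.exp_pos _)
  have hpi := Real.pi_pos
  have i1 : a ∈ Set.Icc a b := ⟨le_refl _, hab⟩
  have i2 : b ∈ Set.Icc a b := ⟨hab, le_refl _⟩
  have i3 : c ∈ Set.Icc c d := ⟨le_refl _, hcd⟩
  have i4 : d ∈ Set.Icc c d := ⟨hcd, le_refl _⟩
  -- the corner (a, c)
  have h00 : θ a c = Complex.arg (Fc (a, c)) := by
    simp only [θ]; rw [hG0, Complex.log_im]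
  have l00 : -Real.pi < θ a c := by rw [h00]; exact Complex.neg_pi_lt_arg _
  have u00 : θ a c ≤ Real.pi := by rw [h00]; exact Complex.arg_le_pi _
  have s00 := c3 c i3
  have k00 := c1 a i1
  have n00 : θ a c < 0 := by
    by_contra hh
    push Not at hh
    linarith [Real.sin_nonneg_of_nonneg_of_le_pi hh u00]
  have m00 : θ a c < -(Real.pi / 2) := by
    by_contra hh
    push Not at hh
    linarith [Real.cos_nonneg_of_neg_pi_div_two_le_of_le hh (by linarith)]
  -- path A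
  have A1 := stay_sin (f := fun u => θ a u) (by fun_prop) hcd (fun u hu => (c3 u hu).ne)
    (k := -1) (by push_cast; constructor <;> linarith)
  push_cast at A1
  have A2 : -(Real.pi / 2) < θ a d := by
    by_contra hh
    push Not at hh
    have h5 := c2 a i1
    have h6 : Real.cos (θ a d) = - Real.cos (θ a d + Real.pi) := by
      rw [Real.cos_add_pi]; ring
    have h7 := Real.cos_nonneg_of_neg_pi_div_two_le_of_le (x := θ a d + Real.pi)
      (by linarith [A1.1]) (by linarith)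
    linarith
  have A3 := stay_sin (f := fun s => θ s d + Real.pi / 2) (by fun_prop) hab (fun s hs => by
      rw [Real.sin_add_pi_div_two]; exact (c2 s hs).ne')
    (k := 0) (by push_cast; constructor <;> linarith [A1.2])
  push_cast at A3
  have A4 : 0 < θ b d := by
    by_contra hh
    push Not at hh
    linarith [Real.sin_nonpos_of_nonpos_of_neg_pi_le hh (by linarith [A3.1]), c4 d i4]
  -- path B
  have B1 := stay_sin (f := fun s => θ s c + Real.pi / 2) (by fun_prop) hab (fun s hs => by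
      rw [Real.sin_add_pi_div_two]; exact (c1 s hs).ne)
    (k := -1) (by push_cast; constructor <;> linarith)
  push_cast at B1
  have B2 : θ b c < -Real.pi := by
    by_contra hh
    push Not at hh
    linarith [Real.sin_nonpos_of_nonpos_of_neg_pi_le (x := θ b c) (by linarith [B1.2]) hh, c4 c i3]
  have B3 := stay_sin (f := fun u => θ b u) (by fun_prop) hcd (fun u hu => (c4 u hu).ne')
    (k := -2) (by push_cast; constructor <;> linarith [B1.1])
  push_cast at B3
  linarith [B3.2]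

end

/-! The concrete walls and the functions. -/

/-- wall values -/
noncomputable def wv (s : List ℕ) (u : ℚ) : ℝ := (Encodable.encode s : ℝ) * √2 + u

lemma wv_inj {s s' : List ℕ} {u u' : ℚ} (h : wv s u = wv s' u') : s = s' := by
  unfold wv at h
  by_contra hne
  have h1 : (Encodable.encode s : ℤ) - (Encodable.encode s' : ℤ) ≠ 0 := by
    intro h0
    apply hne
    apply Encodable.encode_injective
    omega
  have h2 : Irrational (√2 * (((Encodable.encode s : ℤ) - (Encodable.encode s' : ℤ) : ℤ) : ℝ)) :=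
    irrational_sqrt_two.mul_intCast h1
  apply h2
  refine ⟨u' - u, ?_⟩
  push_cast
  linarith

section

variable {m : ℕ}

/-- the walls with index `s` -/
def Wall (m : ℕ) (S : Set (List ℕ)) (s : List ℕ) : Set ((Fin (m + 1) → ℝ) × ℝ) :=
  {z | 0 < z.2 ∧ s ∈ S ∧ (s = [] ∨ ∃ i : Fin (m + 1), ∃ u : ℚ, z.1 i = wv s u ∧
    ((Encodable.encode s + Encodable.encode u : ℕ) : ℝ) * z.2 ≤ 1)}

lemma ncard_walls (S : Set (List ℕ)) (z : (Fin (m + 1) → ℝ) × ℝ) :
    {s | z ∈ Wall m S s}.Finite ∧ {s | z ∈ Wall m S s}.ncard ≤ m + 2 := by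
  classical
  let f : Option (Fin (m + 1)) → List ℕ := fun o => match o with
    | none => []
    | some i => if h : ∃ s : List ℕ, ∃ u : ℚ, z.1 i = wv s u then h.choose else []
  have hsub : {s | z ∈ Wall m S s} ⊆ range f := by
    rintro s ⟨-, -, hs⟩
    rcases hs with hs | ⟨i, u, hi, -⟩
    · exact ⟨none, hs.symm⟩
    · refine ⟨some i, ?_⟩
      have hex : ∃ s : List ℕ, ∃ u : ℚ, z.1 i = wv s u := ⟨s, u, hi⟩
      show (if h : ∃ s : List ℕ, ∃ u : ℚ, z.1 i = wv s u then h.choose else []) = s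
      rw [dif_pos hex]
      obtain ⟨u', hu'⟩ := hex.choose_spec
      exact wv_inj (hu'.symm.trans hi)
  have hfin : (range f).Finite := finite_range f
  refine ⟨hfin.subset hsub, (ncard_le_ncard hsub hfin).trans ?_⟩
  have h1 : (range f).ncard ≤ Nat.card (Option (Fin (m + 1))) := by
    rw [← image_univ]
    refine (ncard_image_le (finite_univ)).trans ?_
    rw [ncard_univ]
  refine h1.trans ?_
  rw [Nat.card_eq_fintype_card, Fintype.card_option, Fintype.card_fin]

lemma cnt_succ_le {S : Set (List ℕ)} {z : (Fin (m + 1) → ℝ) × ℝ} {b s : List ℕ} (hbs : b < s)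
    (hb : z ∈ Wall m S b) : cnt (Wall m S) b z + 1 ≤ cnt (Wall m S) s z := by
  unfold cnt
  have hfin := (ncard_walls S z).1
  have h1 : b ∉ {u | u < b ∧ z ∈ Wall m S u} := fun h => lt_irrefl _ h.1
  have h2 : {u | u < b ∧ z ∈ Wall m S u}.Finite := hfin.subset (fun u hu => hu.2)
  rw [← ncard_insert_of_notMem h1 h2]
  apply ncard_le_ncard _ (hfin.subset (fun u hu => hu.2))
  intro u hu
  rcases hu with hu | hu
  · rw [hu]; exact ⟨hbs, hb⟩
  · exact ⟨hu.1.trans hbs, hu.2⟩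

lemma cnt_le {S : Set (List ℕ)} {z : (Fin (m + 1) → ℝ) × ℝ} {b s : List ℕ} (hbs : b < s)
    (hb : z ∈ Wall m S b) (hs : z ∈ Wall m S s) : cnt (Wall m S) b z ≤ m := by
  have h1 := cnt_succ_le hbs hb
  have h2 : cnt (Wall m S) s z + 1 ≤ m + 2 := by
    unfold cnt
    have hfin := (ncard_walls S z).1
    have h1 : s ∉ {u | u < s ∧ z ∈ Wall m S u} := fun h => lt_irrefl _ h.1
    have h2 : {u | u < s ∧ z ∈ Wall m S u}.Finite := hfin.subset (fun u hu => hu.2)
    rw [← ncard_insert_of_notMem h1 h2]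
    refine le_trans (ncard_le_ncard ?_ hfin) (ncard_walls S z).2
    intro u hu
    rcases hu with hu | hu
    · rw [hu]; exact hs
    · exact hu.2
  omega

/-- the region of times at least `1/k` -/
def Xk (m k : ℕ) : Set ((Fin (m + 1) → ℝ) × ℝ) := {z | 1 ≤ (k : ℝ) * z.2}

lemma Xk_pos {k : ℕ} {z : (Fin (m + 1) → ℝ) × ℝ} (hz : z ∈ Xk m k) : 0 < z.2 := by
  have h : 1 ≤ (k : ℝ) * z.2 := hz
  by_contra hc
  push Not at hc
  have := mul_nonpos_of_nonneg_of_nonpos (Nat.cast_nonneg (α := ℝ) k) hc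
  linarith

lemma mem_Xk_of_pos {z : (Fin (m + 1) → ℝ) × ℝ} (hz : 0 < z.2) : ∃ k, z ∈ Xk m k := by
  obtain ⟨k, hk⟩ := exists_nat_gt (1 / z.2)
  refine ⟨k, ?_⟩
  rw [div_lt_iff₀ hz] at hk
  exact hk.le

lemma Xk_closed (k : ℕ) : IsClosed (Xk m k) :=
  isClosed_le continuous_const (by fun_prop)

lemma Xk_zero : Xk m 0 = ∅ := by
  ext z
  simp only [Xk, mem_ofPred_eq, Nat.cast_zero, zero_mul, mem_empty_iff_false, iff_false]
  norm_num

lemma Xk_mono (k : ℕ) : Xk m k ⊆ interior (Xk m (k + 1)) := by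
  have ho : IsOpen {z : (Fin (m + 1) → ℝ) × ℝ | 1 < ((k + 1 : ℕ) : ℝ) * z.2} :=
    isOpen_lt continuous_const (by fun_prop)
  have hsub : {z : (Fin (m + 1) → ℝ) × ℝ | 1 < ((k + 1 : ℕ) : ℝ) * z.2} ⊆ Xk m (k + 1) := by
    intro z hz
    have hz' : 1 < ((k + 1 : ℕ) : ℝ) * z.2 := hz
    exact hz'.le
  refine Subset.trans ?_ (interior_maximal hsub ho)
  intro z hz
  have h0 := Xk_pos hz
  have h : 1 ≤ (k : ℝ) * z.2 := hz
  show 1 < ((k + 1 : ℕ) : ℝ) * z.2
  push_cast
  linarith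

lemma wall_empty {S : Set (List ℕ)} {k : ℕ} {s : List ℕ} (hs : s ≠ [])
    (hk : k < Encodable.encode s) : Wall m S s ∩ Xk m k = ∅ := by
  ext z
  simp only [mem_inter_iff, mem_empty_iff_false, iff_false, not_and]
  rintro ⟨h0, -, h | ⟨i, u, -, hu⟩⟩ hz
  · exact hs h
  · have h : 1 ≤ (k : ℝ) * z.2 := hz
    have h1 : ((Encodable.encode s + Encodable.encode u : ℕ) : ℝ) ≤ k := by
      by_contra hc
      push Not at hc
      have := mul_lt_mul_of_pos_right hc h0
      linarith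
    have h2 : Encodable.encode s + Encodable.encode u ≤ k := by exact_mod_cast h1
    omega

lemma wall_closed (S : Set (List ℕ)) (k : ℕ) (s : List ℕ) : IsClosed (Wall m S s ∩ Xk m k) := by
  classical
  by_cases hS : s ∈ S
  swap
  · have : Wall m S s ∩ Xk m k = ∅ := by
      ext z
      simp only [mem_inter_iff, mem_empty_iff_false, iff_false, not_and]
      rintro ⟨-, h, -⟩
      exact absurd h hS
    rw [this]
    exact isClosed_empty
  by_cases hs : s = []
  · have : Wall m S s ∩ Xk m k = Xk m k := by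
      ext z
      simp only [mem_inter_iff, and_iff_right_iff_imp]
      intro hz
      exact ⟨Xk_pos hz, hS, Or.inl hs⟩
    rw [this]
    exact Xk_closed k
  have hU : {u : ℚ | Encodable.encode u ≤ k}.Finite :=
    (finite_Iic k).preimage (Encodable.encode_injective.injOn)
  have key : Wall m S s ∩ Xk m k = Xk m k ∩ ⋃ i ∈ (univ : Set (Fin (m + 1))),
      ⋃ u ∈ {u : ℚ | Encodable.encode u ≤ k}, {z | z.1 i = wv s u ∧
        ((Encodable.encode s + Encodable.encode u : ℕ) : ℝ) * z.2 ≤ 1} := by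
    ext z
    simp only [mem_inter_iff, mem_iUnion, mem_ofPred_eq, exists_prop, mem_univ, true_and]
    constructor
    · rintro ⟨⟨h0, -, h | ⟨i, u, h1, h2⟩⟩, hz⟩
      · exact absurd h hs
      · refine ⟨hz, i, u, ?_, h1, h2⟩
        have h : 1 ≤ (k : ℝ) * z.2 := hz
        have h1 : ((Encodable.encode s + Encodable.encode u : ℕ) : ℝ) ≤ k := by
          by_contra hc
          push Not at hc
          have := mul_lt_mul_of_pos_right hc h0
          linarith
        have h2 : Encodable.encode s + Encodable.encode u ≤ k := by exact_mod_cast h1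
        omega
    · rintro ⟨hz, i, u, -, h1, h2⟩
      exact ⟨⟨Xk_pos hz, hS, Or.inr ⟨i, u, h1, h2⟩⟩, hz⟩
  rw [key]
  refine (Xk_closed k).inter (finite_univ.isClosed_biUnion fun i _ => hU.isClosed_biUnion ?_)
  intro u _
  have h1 : IsClosed {z : (Fin (m + 1) → ℝ) × ℝ | z.1 i = wv s u} :=
    isClosed_eq (by fun_prop) continuous_const
  have h2 : IsClosed {z : (Fin (m + 1) → ℝ) × ℝ |
      ((Encodable.encode s + Encodable.encode u : ℕ) : ℝ) * z.2 ≤ 1} :=
    isClosed_le (by fun_prop) continuous_const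
  exact h1.inter h2

/-- The functions which define the partitions. -/
theorem exists_functions (m : ℕ) (x₀ : Fin (m + 1) → ℝ) {ρ : ℝ} (hρ : 0 < ρ) :
    ∃ (S : Set (List ℕ)) (Q : List ℕ → Fin (m + 1) → ℝ) (r : List ℕ → ℝ)
      (h : List ℕ → (Fin (m + 1) → ℝ) × ℝ → ℝ),
      Q [] = x₀ ∧ r [] = ρ ∧ (∀ s, 0 < r s) ∧ (∀ s z, 0 < z.2 → ContinuousAt (h s) z) ∧
      (∀ s z, 0 < z.2 → dist z.1 (Q s) ≤ r s → 0 < h s z) ∧
      (∀ s z, 0 < z.2 → 2 * r s ≤ dist z.1 (Q s) → h s z < 0) ∧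
      (∀ s ∈ S, ∀ (u : ℚ) (i : Fin (m + 1)) z, 0 < z.2 → z.1 i = wv s u →
        ((Encodable.encode s + Encodable.encode u : ℕ) : ℝ) * z.2 ≤ 1 → h s z = 0 →
        h [] z ≠ 0) ∧
      (∀ x : Fin (m + 1) → ℝ, ∀ η : ℝ, 0 < η → ∃ s ∈ S, dist x (Q s) < r s ∧ r s ≤ η) := by
  classical
  -- the design
  let c : ℕ → (Fin (m + 1) → ℝ) := fun j => TopologicalSpace.denseSeq _ (Nat.unpair j).1
  let R : ℕ → ℝ := fun j => ρ / 8 / ((Nat.unpair j).2 + 1)
  have hR : ∀ j, 0 < R j := fun j => by positivity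
  have hR8 : ∀ j, R j ≤ ρ / 8 := fun j => by
    apply div_le_self (by positivity)
    have : (0 : ℝ) ≤ ((Nat.unpair j).2 : ℝ) := Nat.cast_nonneg _
    linarith
  obtain ⟨T, q, r, hlen, hrpos, hbase, hd1, hcov⟩ := exists_design m hρ c R hR hR8
  let r' : List ℕ → ℝ := fun a => if a ∈ T then r a else 1
  have hr'pos : ∀ a, 0 < r' a := by
    intro a
    by_cases ha : a ∈ T
    · simp only [r', if_pos ha]; exact hrpos a ha
    · simp only [r', if_neg ha]; norm_num
  have hr' : ∀ a ∈ T, r' a = r a := fun a ha => by simp only [r', if_pos ha]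
  let S : Set (List ℕ) := {s | s = [] ∨ ∃ a ∈ T, s = 0 :: a}
  let Q : List ℕ → (Fin (m + 1) → ℝ) := comb x₀ (fun _ => q)
  let Rr : List ℕ → ℝ := comb ρ (fun _ => r')
  have hRr : ∀ s, 0 < Rr s := by
    intro s
    cases s with
    | nil => exact hρ
    | cons a l => exact hr'pos l
  have hnil : ([] : List ℕ) ∈ S := Or.inl rfl
  have hScons : ∀ b s, s ∈ S → b < s → ∃ a ∈ T, s = 0 :: a := by
    intro b s hs hbs
    rcases hs with hs | hs
    · rw [hs] at hbs
      exact absurd hbs (List.not_lt_nil b)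
    · exact hs
  have hlenS : ∀ b s, s ∈ S → b < s → s.length = m + 2 := by
    intro b s hs hbs
    obtain ⟨a, ha, rfl⟩ := hScons b s hs hbs
    simp [hlen a ha]
  have hD1 : ∀ b ∈ S, ∀ s ∈ S, ∀ s' ∈ S, b < s → b < s' → cp b s + 2 ≤ cp s s' →
      dist (Q s) (Q s') + 2 * Rr s + 2 * Rr s' ≤ Rr b := by
    intro b hb s hs s' hs' hbs hbs' hcp
    obtain ⟨a, ha, rfl⟩ := hScons b s hs hbs
    obtain ⟨a', ha', rfl⟩ := hScons b s' hs' hbs'
    rw [cp_cons 0 0 a a', if_pos rfl] at hcp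
    have e1 : Q (0 :: a) = q a := rfl
    have e2 : Q (0 :: a') = q a' := rfl
    have e3 : Rr (0 :: a) = r a := hr' a ha
    have e4 : Rr (0 :: a') = r a' := hr' a' ha'
    rw [e1, e2, e3, e4]
    rcases hb with hb | ⟨b', hb', hb⟩
    · subst hb
      exact hbase a ha a' ha' (by omega)
    · subst hb
      have e5 : Rr (0 :: b') = r b' := hr' b' hb'
      rw [e5]
      rw [cp_cons 0 0 b' a, if_pos rfl] at hcp
      have l1 : b' < a := by
        rcases List.cons_lt_cons_iff.mp hbs with h | h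
        · exact absurd h (lt_irrefl _)
        · exact h.2
      have l2 : b' < a' := by
        rcases List.cons_lt_cons_iff.mp hbs' with h | h
        · exact absurd h (lt_irrefl _)
        · exact h.2
      exact hd1 b' hb' a ha a' ha' l1 l2 (by omega)
  -- the data of the stage lemma
  let A : List ℕ → Set ((Fin (m + 1) → ℝ) × ℝ) := fun s => {z | dist z.1 (Q s) ≤ Rr s}
  let B : List ℕ → Set ((Fin (m + 1) → ℝ) × ℝ) := fun s => {z | 2 * Rr s ≤ dist z.1 (Q s)}
  have hA : ∀ s, IsClosed (A s) := fun s => isClosed_le (by fun_prop) continuous_const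
  have hB : ∀ s, IsClosed (B s) := fun s => isClosed_le continuous_const (by fun_prop)
  have hAB : ∀ s, Disjoint (A s) (B s) := by
    intro s
    rw [Set.disjoint_left]
    intro z hz1 hz2
    have h1 : dist z.1 (Q s) ≤ Rr s := hz1
    have h2 : 2 * Rr s ≤ dist z.1 (Q s) := hz2
    have := hRr s
    linarith
  let sg : List ℕ → List ℕ → Prop := fun b s => ∃ s' ∈ S, b < s' ∧ cp b s + 2 ≤ cp s s' ∧
    ∃ x : Fin (m + 1) → ℝ, dist x (Q s') < 2 * Rr s' ∧ dist x (Q b) ≤ Rr b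
  have hTfin : ∀ k, {s : List ℕ | Encodable.encode s ≤ k}.Finite := fun k =>
    (finite_Iic k).preimage (Encodable.encode_injective.injOn)
  let TT : ℕ → Finset (List ℕ) := fun k => insert [] (hTfin k).toFinset
  have hT : ∀ k s, s ∉ TT k → Wall m S s ∩ Xk m k = ∅ := by
    intro k s hs
    simp only [TT, Finset.mem_insert, Finite.mem_toFinset, mem_ofPred_eq, not_or, not_le] at hs
    exact wall_empty hs.1 hs.2
  have H2 : ∀ b s' s, b < s' → s' < s → ∀ k, ∀ x ∈ Xk m k, x ∈ Wall m S b → x ∈ Wall m S s' →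
      x ∈ Wall m S s → cp b s ≤ cnt (Wall m S) b x → cp b s' ≤ cnt (Wall m S) b x →
      ¬ (sg b s ↔ sg b s') → cp s' s ≤ cnt (Wall m S) s' x := by
    intro b s' s hbs' hs's k x _ hxb _ _ hc1 hc2 hne
    by_contra hc
    push Not at hc
    apply hne
    have h1 := cnt_succ_le (S := S) (z := x) hbs' hxb
    have u1 := cp_ultra b s' s
    have u2 := cp_ultra b s s'
    rw [cp_comm s s'] at u2
    have heq : cp b s = cp b s' := by
      rcases le_total (cp b s) (cp b s') with h | h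
      · rw [min_eq_left (by omega)] at u1
        omega
      · rw [min_eq_left (by omega)] at u2
        omega
    constructor
    · rintro ⟨s'', hS'', hb, hcp, hx⟩
      refine ⟨s'', hS'', hb, ?_, hx⟩
      have u3 := cp_ultra s' s s''
      have u4 : cp b s + 2 ≤ min (cp s' s) (cp s s'') := le_min (by omega) hcp
      omega
    · rintro ⟨s'', hS'', hb, hcp, hx⟩
      refine ⟨s'', hS'', hb, ?_, hx⟩
      have u3 := cp_ultra s s' s''
      have u4 : cp b s' + 2 ≤ min (cp s s') (cp s' s'') :=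
        le_min (by rw [cp_comm s s']; omega) hcp
      omega
  have H3 : ∀ b s, b < s → ∀ k, ∀ x ∈ Xk m k, x ∈ Wall m S b → x ∈ Wall m S s →
      cp b s ≤ cnt (Wall m S) b x → x ∉ A s → x ∉ B s →
      (x ∈ A b → sg b s) ∧ (x ∈ B b → ¬ sg b s) := by
    intro b s hbs k x _ hxb hxs hcp _ hxB
    have hxB' : dist x.1 (Q s) < 2 * Rr s := not_le.mp hxB
    have hbS : b ∈ S := hxb.2.1
    have hsS : s ∈ S := hxs.2.1
    have h1 := cnt_le hbs hxb hxs
    have h2 := hlenS b s hsS hbs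
    constructor
    · intro hxA
      refine ⟨s, hsS, hbs, ?_, x.1, hxB', hxA⟩
      rw [cp_self, h2]
      omega
    · rintro hxBb ⟨s', hs'S, hbs', hcp', y, hy1, hy2⟩
      have h3 := hD1 b hbS s hsS s' hs'S hbs hbs' hcp'
      have h4 : 2 * Rr b ≤ dist x.1 (Q b) := hxBb
      have t1 := dist_triangle x.1 (Q s) (Q b)
      have t2 := dist_triangle (Q s) (Q s') (Q b)
      have t3 := dist_triangle_left (Q s') (Q b) y
      linarith
  let g : List ℕ → C((Fin (m + 1) → ℝ) × ℝ, ℝ) := fun s =>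
    ⟨fun z => 3 / 2 * Rr s - dist z.1 (Q s), by fun_prop⟩
  have hgA : ∀ s, ∀ x ∈ A s, 0 < g s x := by
    intro s x hx
    have h1 : dist x.1 (Q s) ≤ Rr s := hx
    have h2 := hRr s
    show 0 < 3 / 2 * Rr s - dist x.1 (Q s)
    linarith
  have hgB : ∀ s, ∀ x ∈ B s, g s x < 0 := by
    intro s x hx
    have h1 : 2 * Rr s ≤ dist x.1 (Q s) := hx
    have h2 := hRr s
    show 3 / 2 * Rr s - dist x.1 (Q s) < 0
    linarith
  obtain ⟨h, h1, h2, h3, h4⟩ := limit (E := (Fin (m + 1) → ℝ) × ℝ) hA hB hAB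
    (X := Xk m) Xk_closed Xk_zero Xk_mono
    hT (wall_closed S) (lam := cp) (sg := sg) H2 H3 g hgA hgB
  refine ⟨{s | ∃ a ∈ T, s = 0 :: a}, Q, Rr, h, rfl, rfl, hRr, ?_, ?_, ?_, ?_, ?_⟩
  · intro s z hz
    obtain ⟨k, hk⟩ := mem_Xk_of_pos hz
    exact h1 s k z hk
  · intro s z hz hd
    obtain ⟨k, hk⟩ := mem_Xk_of_pos hz
    exact h2 s k z hk hd
  · intro s z hz hd
    obtain ⟨k, hk⟩ := mem_Xk_of_pos hz
    exact h3 s k z hk hd
  · rintro _ ⟨a, ha, rfl⟩ u i z hz hzi hu hzero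
    obtain ⟨k, hk⟩ := mem_Xk_of_pos hz
    have hW0 : z ∈ Wall m S [] := ⟨hz, hnil, Or.inl rfl⟩
    have hWs : z ∈ Wall m S (0 :: a) := ⟨hz, Or.inr ⟨a, ha, rfl⟩, Or.inr ⟨i, u, hzi, hu⟩⟩
    have := h4 [] (0 :: a) (List.nil_lt_cons _ _) k z hk hW0 hWs
      (by rw [cp_nil_left]; exact Nat.zero_le _) hzero
    by_cases hs : sg [] (0 :: a)
    · exact (this.1 hs).ne'
    · exact (this.2 hs).ne
  · intro x η hη
    obtain ⟨v, hv⟩ := exists_nat_gt (ρ / 8 / η)
    have hv1 : 0 < ρ / 8 / ((v : ℝ) + 1) := by positivity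
    have hd := TopologicalSpace.denseRange_denseSeq (Fin (m + 1) → ℝ)
    obtain ⟨w, hw⟩ := hd.exists_mem_open (Metric.isOpen_ball (x := x)
      (ε := ρ / 8 / ((v : ℝ) + 1))) ⟨x, Metric.mem_ball_self hv1⟩
    have hj1 : c (Nat.pair w v) = TopologicalSpace.denseSeq _ w := by
      simp only [c, Nat.unpair_pair]
    have hj2 : R (Nat.pair w v) = ρ / 8 / ((v : ℝ) + 1) := by
      simp only [R, Nat.unpair_pair]
    obtain ⟨a, ha, hxa, hra⟩ := hcov (Nat.pair w v) x (by
      rw [hj1, hj2, dist_comm]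
      exact Metric.mem_ball.mp hw)
    refine ⟨0 :: a, ⟨a, ha, rfl⟩, ?_, ?_⟩
    · show dist x (q a) < r' a
      rw [hr' a ha]
      exact hxa
    · show r' a ≤ η
      rw [hr' a ha]
      refine hra.trans ?_
      rw [hj2]
      rw [div_lt_iff₀ hη] at hv
      rw [div_le_iff₀ (by positivity)]
      nlinarith [hv, hη]

end

/-! Partitions and the upper bound. -/

/-- `CmpLE k X` says that the small inductive compactness degree of `X` is at most `k - 1`. -/
def CmpLE : ℕ → (X : Type u) → [TopologicalSpace X] → Prop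
  | 0, X, _ => CompactSpace X
  | k + 1, X, _ => ∀ (p : X) (G : Set X), IsClosed G → p ∉ G →
      ∃ S U V : Set X, IsClosed S ∧ IsOpen U ∧ IsOpen V ∧ Disjoint U V ∧ Sᶜ = U ∪ V ∧
        p ∈ U ∧ G ⊆ V ∧ CmpLE k S

section Ambient

variable {E : Type u} [TopologicalSpace E]

/-- Ambient form of `CmpLE`. -/
def PCmp : ℕ → Set E → Prop
  | 0, Y => IsCompact Y
  | k + 1, Y => ∀ p ∈ Y, ∀ G : Set E, IsClosed G → p ∉ G →
      ∃ U V : Set E, IsOpen U ∧ IsOpen V ∧ U ∩ V ∩ Y = ∅ ∧ p ∈ U ∧ G ∩ Y ⊆ V ∧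
        PCmp k (Y \ (U ∪ V))

lemma cmpLE_iff : ∀ (k : ℕ) {X : Type u} [TopologicalSpace X] {f : X → E},
    IsEmbedding f → (CmpLE k X ↔ PCmp k (range f)) := by
  intro k
  induction k with
  | zero =>
    intro X _ f hf
    show CompactSpace X ↔ IsCompact (range f)
    rw [← image_univ, ← hf.isCompact_iff, isCompact_univ_iff]
  | succ k ih =>
    intro X _ f hf
    constructor
    · rintro h _ ⟨x, rfl⟩ G hG hxG
      obtain ⟨S, U', V', hS, hU', hV', hd, hSc, hxU, hGV, hSk⟩ :=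
        h x (f ⁻¹' G) (hG.preimage hf.continuous) hxG
      obtain ⟨U, hU, rfl⟩ := hf.isInducing.isOpen_iff.mp hU'
      obtain ⟨V, hV, rfl⟩ := hf.isInducing.isOpen_iff.mp hV'
      refine ⟨U, V, hU, hV, ?_, hxU, ?_, ?_⟩
      · ext y
        simp only [mem_inter_iff, mem_empty_iff_false, iff_false, not_and]
        rintro ⟨hyU, hyV⟩ ⟨x', rfl⟩
        exact (Set.disjoint_left.mp hd) hyU hyV
      · rintro _ ⟨hyG, x', rfl⟩
        exact hGV hyG
      · have he : IsEmbedding (fun s : S => f s.1) := hf.comp IsEmbedding.subtypeVal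
        have h1 := (ih he).mp hSk
        have h2 : range (fun s : S => f s.1) = range f \ (U ∪ V) := by
          ext y
          constructor
          · rintro ⟨⟨s, hs⟩, rfl⟩
            refine ⟨⟨s, rfl⟩, ?_⟩
            intro hc
            have : s ∈ Sᶜ := by
              rw [hSc]
              exact hc
            exact this hs
          · rintro ⟨⟨x', rfl⟩, hx'⟩
            have : x' ∈ S := by
              by_contra hc
              have h3 : x' ∈ Sᶜ := hc
              rw [hSc] at h3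
              exact hx' h3
            exact ⟨⟨x', this⟩, rfl⟩
        rw [h2] at h1
        exact h1
    · intro h x G' hG' hxG'
      obtain ⟨G, hG, rfl⟩ := hf.isInducing.isClosed_iff.mp hG'
      obtain ⟨U, V, hU, hV, hUV, hxU, hGV, hk⟩ := h (f x) ⟨x, rfl⟩ G hG hxG'
      refine ⟨(f ⁻¹' U ∪ f ⁻¹' V)ᶜ, f ⁻¹' U, f ⁻¹' V, ?_, hU.preimage hf.continuous,
        hV.preimage hf.continuous, ?_, compl_compl _, hxU, ?_, ?_⟩
      · exact ((hU.preimage hf.continuous).union (hV.preimage hf.continuous)).isClosed_compl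
      · rw [Set.disjoint_left]
        intro y hy1 hy2
        have : f y ∈ U ∩ V ∩ range f := ⟨⟨hy1, hy2⟩, y, rfl⟩
        rw [hUV] at this
        exact this
      · intro y hy
        exact hGV ⟨hy, y, rfl⟩
      · have he : IsEmbedding (fun s : ((f ⁻¹' U ∪ f ⁻¹' V)ᶜ : Set X) => f s.1) :=
          hf.comp IsEmbedding.subtypeVal
        rw [ih he]
        have h2 : range (fun s : ((f ⁻¹' U ∪ f ⁻¹' V)ᶜ : Set X) => f s.1) =
            range f \ (U ∪ V) := by
          ext y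
          constructor
          · rintro ⟨⟨s, hs⟩, rfl⟩
            exact ⟨⟨s, rfl⟩, hs⟩
          · rintro ⟨⟨x', rfl⟩, hx'⟩
            exact ⟨⟨x', hx'⟩, rfl⟩
        rw [h2]
        exact hk

end Ambient

section Metric

variable {E : Type u} [PseudoMetricSpace E]

lemma exists_closedBall_disjoint {p : E} {G : Set E} (hG : IsClosed G) (hp : p ∉ G) :
    ∃ η : ℝ, 0 < η ∧ ∀ z ∈ G, η < dist z p := by
  obtain ⟨η, hη, h⟩ := Metric.nhds_basis_closedBall.mem_iff.mp (hG.isOpen_compl.mem_nhds hp)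
  refine ⟨η, hη, fun z hz => ?_⟩
  by_contra hc
  exact h (Metric.mem_closedBall.mpr (not_lt.mp hc)) hz

lemma PCmp.of_isCompact : ∀ (k : ℕ) {Y : Set E}, IsCompact Y → PCmp k Y := by
  intro k
  induction k with
  | zero => intro Y h; exact h
  | succ k ih =>
    intro Y hY p _ G hG hpG
    obtain ⟨η, hη, h⟩ := exists_closedBall_disjoint hG hpG
    refine ⟨Metric.ball p η, (Metric.closedBall p η)ᶜ, Metric.isOpen_ball,
      Metric.isClosed_closedBall.isOpen_compl, ?_, Metric.mem_ball_self hη, ?_, ?_⟩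
    · ext y
      simp only [mem_inter_iff, mem_empty_iff_false, iff_false, not_and]
      rintro ⟨hy1, hy2⟩
      exact absurd (Metric.ball_subset_closedBall hy1) hy2
    · rintro z ⟨hz, -⟩
      rw [mem_compl_iff, Metric.mem_closedBall, not_le]
      exact h z hz
    · apply ih
      exact hY.diff (Metric.isOpen_ball.union Metric.isClosed_closedBall.isOpen_compl)

end Metric

section Model

/-- The model: `x` in the cube, `t` in `[0,2]`, and `t > 0` or `x` in the boundary. -/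
def ZM (m : ℕ) : Set ((Fin (m + 1) → ℝ) × ℝ) :=
  {z | (∀ i, z.1 i ∈ Icc (-1 : ℝ) 1) ∧ z.2 ∈ Icc (0 : ℝ) 2 ∧
    (0 < z.2 ∨ ∃ i, z.1 i = 1 ∨ z.1 i = -1)}

variable {m : ℕ}

/-- compact parts of the model -/
def KM (m : ℕ) (ε : ℝ) : Set ((Fin (m + 1) → ℝ) × ℝ) :=
  {z | (∀ i, z.1 i ∈ Icc (-1 : ℝ) 1) ∧ z.2 ∈ Icc (0 : ℝ) 2 ∧
    (ε ≤ z.2 ∨ ∃ i, z.1 i = 1 ∨ z.1 i = -1)}

lemma KM_compact (ε : ℝ) : IsCompact (KM m ε) := by
  have h1 : IsCompact ((Set.pi univ (fun _ : Fin (m + 1) => Icc (-1 : ℝ) 1)) ×ˢ Icc (0 : ℝ) 2) :=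
    (isCompact_univ_pi (fun _ => isCompact_Icc)).prod isCompact_Icc
  have h2 : IsClosed ({z : (Fin (m + 1) → ℝ) × ℝ | ε ≤ z.2} ∪
      ⋃ i ∈ (univ : Set (Fin (m + 1))), {z : (Fin (m + 1) → ℝ) × ℝ | z.1 i = 1 ∨ z.1 i = -1}) := by
    refine IsClosed.union (isClosed_le continuous_const continuous_snd) ?_
    refine finite_univ.isClosed_biUnion fun i _ => ?_
    have e1 : IsClosed {z : (Fin (m + 1) → ℝ) × ℝ | z.1 i = 1} :=
      isClosed_eq (by fun_prop) continuous_const
    have e2 : IsClosed {z : (Fin (m + 1) → ℝ) × ℝ | z.1 i = -1} :=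
      isClosed_eq (by fun_prop) continuous_const
    exact e1.union e2
  have h3 := h1.inter_right h2
  have h4 : KM m ε = ((Set.pi univ (fun _ : Fin (m + 1) => Icc (-1 : ℝ) 1)) ×ˢ Icc (0 : ℝ) 2) ∩
      ({z : (Fin (m + 1) → ℝ) × ℝ | ε ≤ z.2} ∪
      ⋃ i ∈ (univ : Set (Fin (m + 1))),
        {z : (Fin (m + 1) → ℝ) × ℝ | z.1 i = 1 ∨ z.1 i = -1}) := by
    ext z
    simp only [KM, mem_inter_iff, mem_prod, mem_pi, mem_univ, forall_const, mem_union,
      mem_iUnion, mem_ofPred_eq, exists_prop, true_and]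
    exact and_assoc.symm
  rw [h4]
  exact h3

lemma KM_subset {ε : ℝ} (hε : 0 < ε) : KM m ε ⊆ ZM m := by
  rintro z ⟨h1, h2, h3⟩
  refine ⟨h1, h2, ?_⟩
  rcases h3 with h3 | h3
  · exact Or.inl (hε.trans_le h3)
  · exact Or.inr h3

lemma compact_of_subset {C : Set ((Fin (m + 1) → ℝ) × ℝ)} (hC : IsClosed C) {ε : ℝ} (hε : 0 < ε)
    (h : ∀ z ∈ ZM m ∩ C, z.2 = 0 ∨ ε ≤ z.2) : IsCompact (ZM m ∩ C) := by
  have e : ZM m ∩ C = KM m ε ∩ C := by
    ext z
    constructor
    · rintro ⟨hz, hzC⟩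
      refine ⟨⟨hz.1, hz.2.1, ?_⟩, hzC⟩
      rcases h z ⟨hz, hzC⟩ with h0 | h0
      · rcases hz.2.2 with h1 | h1
        · rw [h0] at h1
          exact absurd h1 (lt_irrefl _)
        · exact Or.inr h1
      · exact Or.inl h0
    · rintro ⟨hz, hzC⟩
      exact ⟨KM_subset hε hz, hzC⟩
  rw [e]
  exact (KM_compact ε).inter_right hC

lemma step_local {C : Set ((Fin (m + 1) → ℝ) × ℝ)} (hC : IsClosed C)
    {p : (Fin (m + 1) → ℝ) × ℝ} (hp2 : 0 < p.2) {G : Set ((Fin (m + 1) → ℝ) × ℝ)}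
    (hG : IsClosed G) (hpG : p ∉ G) (k : ℕ) :
    ∃ U V : Set ((Fin (m + 1) → ℝ) × ℝ), IsOpen U ∧ IsOpen V ∧ U ∩ V ∩ (ZM m ∩ C) = ∅ ∧ p ∈ U ∧
      G ∩ (ZM m ∩ C) ⊆ V ∧ PCmp k ((ZM m ∩ C) \ (U ∪ V)) := by
  obtain ⟨η, hη, h⟩ := exists_closedBall_disjoint hG hpG
  have hη' : 0 < min η (p.2 / 2) := by positivity
  refine ⟨Metric.ball p (min η (p.2 / 2)), (Metric.closedBall p (min η (p.2 / 2)))ᶜ,
    Metric.isOpen_ball, Metric.isClosed_closedBall.isOpen_compl, ?_,
    Metric.mem_ball_self hη', ?_, ?_⟩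
  · ext y
    simp only [mem_inter_iff, mem_empty_iff_false, iff_false, not_and]
    rintro ⟨hy1, hy2⟩
    exact absurd (Metric.ball_subset_closedBall hy1) hy2
  · rintro z ⟨hz, -⟩
    rw [mem_compl_iff, Metric.mem_closedBall, not_le]
    exact (min_le_left _ _).trans_lt (h z hz)
  · apply PCmp.of_isCompact
    have e : (ZM m ∩ C) \ (Metric.ball p (min η (p.2 / 2)) ∪
        (Metric.closedBall p (min η (p.2 / 2)))ᶜ) = ZM m ∩ (C ∩ (Metric.ball p (min η (p.2 / 2)) ∪
        (Metric.closedBall p (min η (p.2 / 2)))ᶜ)ᶜ) := by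
      rw [sdiff_eq, inter_assoc]
    rw [e]
    apply compact_of_subset (ε := p.2 / 2)
    · exact hC.inter (Metric.isOpen_ball.union Metric.isClosed_closedBall.isOpen_compl).isClosed_compl
    · positivity
    · rintro z ⟨-, -, hz⟩
      right
      rw [mem_compl_iff, mem_union, not_or, mem_compl_iff, not_not, Metric.mem_closedBall] at hz
      have h1 := hz.2.trans (min_le_right _ _)
      have h2 : dist z.2 p.2 ≤ dist z p := le_max_right _ _
      rw [Real.dist_eq] at h2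
      have h3 := abs_le.mp (h2.trans h1)
      linarith [h3.1]

/-- inner side of a partition -/
def Uo (x₀ : Fin (m + 1) → ℝ) (r δ : ℝ) (h : (Fin (m + 1) → ℝ) × ℝ → ℝ) :
    Set ((Fin (m + 1) → ℝ) × ℝ) :=
  {z | z.2 < δ} ∩ ({z | dist z.1 x₀ < r} ∪ {z | 0 < z.2 ∧ 0 < h z})

/-- outer side of a partition -/
def Vo (x₀ : Fin (m + 1) → ℝ) (r δ : ℝ) (h : (Fin (m + 1) → ℝ) × ℝ → ℝ) :
    Set ((Fin (m + 1) → ℝ) × ℝ) :=
  {z | δ < z.2} ∪ ({z | 2 * r < dist z.1 x₀} ∪ {z | 0 < z.2 ∧ h z < 0})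

lemma Uo_open {x₀ : Fin (m + 1) → ℝ} {r δ : ℝ} {h : (Fin (m + 1) → ℝ) × ℝ → ℝ}
    (hc : ∀ z, 0 < z.2 → ContinuousAt h z) : IsOpen (Uo x₀ r δ h) := by
  refine (isOpen_lt continuous_snd continuous_const).inter
    ((isOpen_lt (by fun_prop) continuous_const).union ?_)
  rw [isOpen_iff_mem_nhds]
  rintro z ⟨hz1, hz2⟩
  filter_upwards [(isOpen_lt continuous_const continuous_snd).mem_nhds hz1,
    (hc z hz1).eventually (lt_mem_nhds hz2)] with y hy1 hy2
  exact ⟨hy1, hy2⟩

lemma Vo_open {x₀ : Fin (m + 1) → ℝ} {r δ : ℝ} {h : (Fin (m + 1) → ℝ) × ℝ → ℝ}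
    (hc : ∀ z, 0 < z.2 → ContinuousAt h z) : IsOpen (Vo x₀ r δ h) := by
  refine (isOpen_lt continuous_const continuous_snd).union
    ((isOpen_lt continuous_const (by fun_prop)).union ?_)
  rw [isOpen_iff_mem_nhds]
  rintro z ⟨hz1, hz2⟩
  filter_upwards [(isOpen_lt continuous_const continuous_snd).mem_nhds hz1,
    (hc z hz1).eventually (gt_mem_nhds hz2)] with y hy1 hy2
  exact ⟨hy1, hy2⟩

lemma UoVo_disj {x₀ : Fin (m + 1) → ℝ} {r δ : ℝ} {h : (Fin (m + 1) → ℝ) × ℝ → ℝ} (hr : 0 < r)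
    (h1 : ∀ z, 0 < z.2 → dist z.1 x₀ ≤ r → 0 < h z)
    (h2 : ∀ z, 0 < z.2 → 2 * r ≤ dist z.1 x₀ → h z < 0) (z : (Fin (m + 1) → ℝ) × ℝ)
    (hzU : z ∈ Uo x₀ r δ h) (hzV : z ∈ Vo x₀ r δ h) : False := by
  obtain ⟨hδ, hU⟩ := hzU
  have hδ' : z.2 < δ := hδ
  rcases hzV with hV | hV | ⟨hV1, hV2⟩
  · have hV' : δ < z.2 := hV
    exact lt_asymm hV' hδ'
  · have hV' : 2 * r < dist z.1 x₀ := hV
    rcases hU with hU | ⟨hU1, hU2⟩
    · have hU' : dist z.1 x₀ < r := hU
      linarith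
    · exact lt_asymm hU2 (h2 z hU1 hV'.le)
  · rcases hU with hU | ⟨hU1, hU2⟩
    · have hU' : dist z.1 x₀ < r := hU
      exact lt_asymm hV2 (h1 z hV1 hU'.le)
    · exact lt_asymm hU2 hV2

lemma zero_of_notMem {x₀ : Fin (m + 1) → ℝ} {r δ : ℝ} {h : (Fin (m + 1) → ℝ) × ℝ → ℝ}
    {z : (Fin (m + 1) → ℝ) × ℝ} (hz : z ∉ Uo x₀ r δ h ∪ Vo x₀ r δ h) (h0 : 0 < z.2)
    (h1 : z.2 < δ) : h z = 0 := by
  rw [mem_union, not_or] at hz
  have e1 : ¬ 0 < h z := fun hc => hz.1 ⟨h1, Or.inr ⟨h0, hc⟩⟩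
  have e2 : ¬ h z < 0 := fun hc => hz.2 (Or.inr (Or.inr ⟨h0, hc⟩))
  exact le_antisymm (not_lt.mp e1) (not_lt.mp e2)

lemma wv_btwn (s : List ℕ) {a b : ℝ} (hab : a < b) : ∃ u : ℚ, a < wv s u ∧ wv s u < b := by
  obtain ⟨u, h1, h2⟩ := exists_rat_btwn (sub_lt_sub_right hab ((Encodable.encode s : ℝ) * √2))
  exact ⟨u, by unfold wv; linarith, by unfold wv; linarith⟩

/-- The upper bound in the model. -/
theorem pcmp_three (m : ℕ) : PCmp 3 (ZM m) := by
  intro p hp G hG hpG
  by_cases hp2 : 0 < p.2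
  · have := step_local (m := m) isClosed_univ hp2 hG hpG 2
    rw [inter_univ] at this
    exact this
  have hp0 : p.2 = 0 := le_antisymm (not_lt.mp hp2) hp.2.1.1
  obtain ⟨η, hη, hηG⟩ := exists_closedBall_disjoint hG hpG
  obtain ⟨S, Q, r, h, hQ, hr, hrpos, hcont, hpos, hneg, hwall, hcov⟩ :=
    exists_functions m p.1 (ρ := η / 2) (by positivity)
  have hU0 : IsOpen (Uo p.1 (η / 2) η (h [])) := Uo_open (hcont [])
  have hV0 : IsOpen (Vo p.1 (η / 2) η (h [])) := Vo_open (hcont [])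
  refine ⟨Uo p.1 (η / 2) η (h []), Vo p.1 (η / 2) η (h []), hU0, hV0, ?_, ?_, ?_, ?_⟩
  · ext z
    simp only [mem_inter_iff, mem_empty_iff_false, iff_false, not_and]
    rintro ⟨hz1, hz2⟩ -
    refine UoVo_disj (by positivity) ?_ ?_ z hz1 hz2
    · intro z hz hd
      exact hpos [] z hz (by rw [hQ, hr]; exact hd)
    · intro z hz hd
      exact hneg [] z hz (by rw [hQ, hr]; exact hd)
  · refine ⟨?_, Or.inl ?_⟩
    · show p.2 < η
      rw [hp0]; exact hη
    · show dist p.1 p.1 < η / 2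
      rw [dist_self]; positivity
  · rintro z ⟨hzG, hzZ⟩
    have h1 := hηG z hzG
    rcases lt_max_iff.mp h1 with h2 | h2
    · right; left
      show 2 * (η / 2) < dist z.1 p.1
      linarith
    · left
      show η < z.2
      rw [hp0, Real.dist_eq, sub_zero, abs_of_nonneg hzZ.2.1.1] at h2
      exact h2
  -- the first partition
  intro z hz G' hG' hzG'
  have hC0 : IsClosed (Uo p.1 (η / 2) η (h []) ∪ Vo p.1 (η / 2) η (h []))ᶜ :=
    (hU0.union hV0).isClosed_compl
  by_cases hz2 : 0 < z.2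
  · rw [sdiff_eq]
    exact step_local hC0 hz2 hG' hzG' 1
  have hz0 : z.2 = 0 := le_antisymm (not_lt.mp hz2) hz.1.2.1.1
  obtain ⟨η', hη', hηG'⟩ := exists_closedBall_disjoint hG' hzG'
  obtain ⟨s, hs, hzs, hrs⟩ := hcov z.1 (η' / 4) (by positivity)
  have hUs : IsOpen (Uo (Q s) (r s) η' (h s)) := Uo_open (hcont s)
  have hVs : IsOpen (Vo (Q s) (r s) η' (h s)) := Vo_open (hcont s)
  refine ⟨Uo (Q s) (r s) η' (h s), Vo (Q s) (r s) η' (h s), hUs, hVs, ?_, ?_, ?_, ?_⟩
  · ext w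
    simp only [mem_inter_iff, mem_empty_iff_false, iff_false, not_and]
    rintro ⟨hw1, hw2⟩ -
    exact UoVo_disj (hrpos s) (hpos s) (hneg s) w hw1 hw2
  · refine ⟨?_, Or.inl hzs⟩
    show z.2 < η'
    rw [hz0]; exact hη'
  · rintro w ⟨hwG, hwZ⟩
    have h1 := hηG' w hwG
    rcases lt_max_iff.mp h1 with h2 | h2
    · right; left
      show 2 * r s < dist w.1 (Q s)
      have h3 := dist_triangle_right w.1 z.1 (Q s)
      have h4 := hrpos s
      linarith
    · left
      show η' < w.2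
      rw [hz0, Real.dist_eq, sub_zero, abs_of_nonneg hwZ.1.2.1.1] at h2
      exact h2
  -- the second partition
  intro w hw G'' hG'' hwG''
  have hCs : IsClosed (Uo (Q s) (r s) η' (h s) ∪ Vo (Q s) (r s) η' (h s))ᶜ :=
    (hUs.union hVs).isClosed_compl
  by_cases hw2 : 0 < w.2
  · rw [sdiff_eq, sdiff_eq, inter_assoc]
    exact step_local (hC0.inter hCs) hw2 hG'' hwG'' 0
  have hw0 : w.2 = 0 := le_antisymm (not_lt.mp hw2) hw.1.1.2.1.1
  obtain ⟨ζ, hζ, hζG⟩ := exists_closedBall_disjoint hG'' hwG''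
  have hu : ∀ i : Fin (m + 1), ∃ u : ℚ, w.1 i - ζ < wv s u ∧ wv s u < w.1 i := fun i =>
    wv_btwn s (by linarith)
  have hv : ∀ i : Fin (m + 1), ∃ u : ℚ, w.1 i < wv s u ∧ wv s u < w.1 i + ζ := fun i =>
    wv_btwn s (by linarith)
  choose u hu1 hu2 using hu
  choose v hv1 hv2 using hv
  let N : ℕ := ∑ i, ((Encodable.encode s + Encodable.encode (u i)) +
    (Encodable.encode s + Encodable.encode (v i)))
  have hN : ∀ i, (Encodable.encode s + Encodable.encode (u i)) +
      (Encodable.encode s + Encodable.encode (v i)) ≤ N := fun i =>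
    Finset.single_le_sum (f := fun i => (Encodable.encode s + Encodable.encode (u i)) +
      (Encodable.encode s + Encodable.encode (v i))) (fun i _ => Nat.zero_le _)
      (Finset.mem_univ i)
  let t₁ : ℝ := min (min (η / 2) (η' / 2)) (min ζ (1 / (N + 1)))
  have ht₁ : 0 < t₁ := by positivity
  have ht1a : t₁ < η := by
    have : t₁ ≤ η / 2 := (min_le_left _ _).trans (min_le_left _ _)
    linarith
  have ht1b : t₁ < η' := by
    have : t₁ ≤ η' / 2 := (min_le_left _ _).trans (min_le_right _ _)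
    linarith
  have ht1c : t₁ ≤ ζ := (min_le_right _ _).trans (min_le_left _ _)
  have ht1d : (N + 1 : ℝ) * t₁ ≤ 1 := by
    have h1 : t₁ ≤ 1 / (N + 1) := (min_le_right _ _).trans (min_le_right _ _)
    have h2 : (0 : ℝ) < N + 1 := by positivity
    rw [le_div_iff₀ h2] at h1
    linarith
  have hUo : IsOpen {y : (Fin (m + 1) → ℝ) × ℝ | (∀ i, wv s (u i) < y.1 i ∧ y.1 i < wv s (v i)) ∧
      y.2 < t₁} := by
    have e : {y : (Fin (m + 1) → ℝ) × ℝ | (∀ i, wv s (u i) < y.1 i ∧ y.1 i < wv s (v i)) ∧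
        y.2 < t₁} = (⋂ i, ({y : (Fin (m + 1) → ℝ) × ℝ | wv s (u i) < y.1 i} ∩
          {y : (Fin (m + 1) → ℝ) × ℝ | y.1 i < wv s (v i)})) ∩
          {y : (Fin (m + 1) → ℝ) × ℝ | y.2 < t₁} := by
      ext y
      simp only [mem_inter_iff, mem_iInter, mem_ofPred_eq]
    rw [e]
    refine IsOpen.inter (isOpen_iInter_of_finite fun i => ?_)
      (isOpen_lt continuous_snd continuous_const)
    exact (isOpen_lt continuous_const (by fun_prop)).inter
      (isOpen_lt (by fun_prop) continuous_const)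
  have hVo : IsOpen {y : (Fin (m + 1) → ℝ) × ℝ | (∃ i, y.1 i < wv s (u i) ∨ wv s (v i) < y.1 i) ∨
      t₁ < y.2} := by
    have e : {y : (Fin (m + 1) → ℝ) × ℝ | (∃ i, y.1 i < wv s (u i) ∨ wv s (v i) < y.1 i) ∨
        t₁ < y.2} = (⋃ i, ({y : (Fin (m + 1) → ℝ) × ℝ | y.1 i < wv s (u i)} ∪
          {y : (Fin (m + 1) → ℝ) × ℝ | wv s (v i) < y.1 i})) ∪
          {y : (Fin (m + 1) → ℝ) × ℝ | t₁ < y.2} := by
      ext y
      simp only [mem_union, mem_iUnion, mem_ofPred_eq]
    rw [e]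
    refine IsOpen.union (isOpen_iUnion fun i => ?_)
      (isOpen_lt continuous_const continuous_snd)
    exact (isOpen_lt (by fun_prop) continuous_const).union
      (isOpen_lt continuous_const (by fun_prop))
  refine ⟨_, _, hUo, hVo, ?_, ?_, ?_, ?_⟩
  · ext y
    simp only [mem_inter_iff, mem_empty_iff_false, iff_false, not_and]
    rintro ⟨⟨hy1, hy2⟩, hy3⟩ -
    rcases hy3 with ⟨i, hi | hi⟩ | hy3
    · exact lt_asymm hi (hy1 i).1
    · exact lt_asymm hi (hy1 i).2
    · exact lt_asymm hy3 hy2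
  · refine ⟨fun i => ⟨hu2 i, hv1 i⟩, ?_⟩
    rw [hw0]; exact ht₁
  · rintro y ⟨hyG, hyZ⟩
    have h1 := hζG y hyG
    rcases lt_max_iff.mp h1 with h2 | h2
    · left
      obtain ⟨i, hi⟩ : ∃ i, ζ < dist (y.1 i) (w.1 i) := by
        by_contra hc
        push Not at hc
        have := (dist_pi_le_iff hζ.le).mpr hc
        linarith
      rw [Real.dist_eq] at hi
      refine ⟨i, ?_⟩
      rcases lt_abs.mp hi with h3 | h3
      · right; linarith [hv2 i]
      · left; linarith [hu1 i]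
    · right
      rw [hw0, Real.dist_eq, sub_zero, abs_of_nonneg hyZ.1.1.2.1.1] at h2
      linarith
  -- the third partition is compact
  show IsCompact _
  rw [sdiff_eq, sdiff_eq, sdiff_eq, inter_assoc, inter_assoc]
  refine compact_of_subset (hC0.inter (hCs.inter (hUo.union hVo).isClosed_compl)) ht₁ ?_
  rintro y ⟨hyZ, hy0, hys, hyw⟩
  by_contra hc
  push Not at hc
  have hypos : 0 < y.2 := lt_of_le_of_ne hyZ.2.1.1 (Ne.symm hc.1)
  have hylt : y.2 < t₁ := hc.2
  have hz1 : h [] y = 0 := zero_of_notMem hy0 hypos (hylt.trans ht1a)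
  have hz2 : h s y = 0 := zero_of_notMem hys hypos (hylt.trans ht1b)
  rw [mem_compl_iff, mem_union, not_or] at hyw
  obtain ⟨hyU, hyV⟩ := hyw
  have hyV1 : ∀ i, wv s (u i) ≤ y.1 i ∧ y.1 i ≤ wv s (v i) := by
    intro i
    constructor
    · by_contra hcc
      exact hyV (Or.inl ⟨i, Or.inl (not_le.mp hcc)⟩)
    · by_contra hcc
      exact hyV (Or.inl ⟨i, Or.inr (not_le.mp hcc)⟩)
  have hex : ∃ i, y.1 i = wv s (u i) ∨ y.1 i = wv s (v i) := by
    by_contra hcc
    push Not at hcc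
    apply hyU
    refine ⟨fun i => ⟨?_, ?_⟩, hylt⟩
    · exact lt_of_le_of_ne (hyV1 i).1 (Ne.symm (hcc i).1)
    · exact lt_of_le_of_ne (hyV1 i).2 (hcc i).2
  obtain ⟨i, hi | hi⟩ := hex
  · refine hwall s hs (u i) i y hypos hi ?_ hz2 hz1
    have e1 : ((Encodable.encode s + Encodable.encode (u i) : ℕ) : ℝ) ≤ (N : ℝ) + 1 := by
      have : Encodable.encode s + Encodable.encode (u i) ≤ N + 1 := by
        have := hN i
        omega
      exact_mod_cast this
    calc ((Encodable.encode s + Encodable.encode (u i) : ℕ) : ℝ) * y.2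
        ≤ ((N : ℝ) + 1) * t₁ := by gcongr
      _ ≤ 1 := ht1d
  · refine hwall s hs (v i) i y hypos hi ?_ hz2 hz1
    have e1 : ((Encodable.encode s + Encodable.encode (v i) : ℕ) : ℝ) ≤ (N : ℝ) + 1 := by
      have : Encodable.encode s + Encodable.encode (v i) ≤ N + 1 := by
        have := hN i
        omega
      exact_mod_cast this
    calc ((Encodable.encode s + Encodable.encode (v i) : ℕ) : ℝ) * y.2
        ≤ ((N : ℝ) + 1) * t₁ := by gcongr
      _ ≤ 1 := ht1d

end Model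

/-! The lower bound. -/

/-- points of the test rectangle -/
def pt (m : ℕ) (y s : ℝ) : Fin (m + 2) → ℝ := fun i =>
  if i = 0 then 1 - s else if i = 1 then y else 0

lemma pt_zero (m : ℕ) (y s : ℝ) : pt m y s 0 = 1 - s := by simp [pt]

lemma pt_one (m : ℕ) (y s : ℝ) : pt m y s 1 = y := by simp [pt]

lemma pt_other (m : ℕ) (y s : ℝ) {i : Fin (m + 2)} (h0 : i ≠ 0) (h1 : i ≠ 1) :
    pt m y s i = 0 := by simp [pt, h0, h1]

lemma pt_cont (m : ℕ) : Continuous (fun z : ℝ × ℝ => pt m z.1 z.2) := by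
  refine continuous_pi fun i => ?_
  by_cases h0 : i = 0
  · subst h0
    simp only [pt_zero]
    fun_prop
  · by_cases h1 : i = 1
    · subst h1
      simp only [pt_one]
      fun_prop
    · simp only [pt_other m _ _ h0 h1]
      fun_prop

lemma pt_dist (m : ℕ) (y s s' : ℝ) : dist (pt m y s) (pt m y s') ≤ |s - s'| := by
  refine (dist_pi_le_iff (abs_nonneg _)).mpr fun i => ?_
  by_cases h0 : i = 0
  · subst h0
    rw [pt_zero, pt_zero, Real.dist_eq]
    have : 1 - s - (1 - s') = -(s - s') := by ring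
    rw [this, abs_neg]
  · by_cases h1 : i = 1
    · subst h1
      rw [pt_one, pt_one, dist_self]
      exact abs_nonneg _
    · rw [pt_other m _ _ h0 h1, pt_other m _ _ h0 h1, dist_self]
      exact abs_nonneg _

lemma pt_mem (m : ℕ) {y s t : ℝ} (hy : y ∈ Icc (0 : ℝ) (1 / 2)) (hs : s ∈ Icc (0 : ℝ) 1)
    (ht : t ∈ Icc (0 : ℝ) 2) (h : 0 < t ∨ s = 0) : (pt m y s, t) ∈ ZM (m + 1) := by
  refine ⟨fun i => ?_, ht, ?_⟩
  · show pt m y s i ∈ Icc (-1 : ℝ) 1
    by_cases h0 : i = 0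
    · subst h0
      rw [pt_zero]
      constructor <;> linarith [hs.1, hs.2]
    · by_cases h1 : i = 1
      · subst h1
        rw [pt_one]
        constructor <;> linarith [hy.1, hy.2]
      · rw [pt_other m _ _ h0 h1]
        constructor <;> norm_num
  · rcases h with h | h
    · exact Or.inl h
    · right
      refine ⟨0, Or.inl ?_⟩
      show pt m y s 0 = 1
      rw [pt_zero, h, sub_zero]

lemma pt_notMem (m : ℕ) {y s : ℝ} (hy : y ∈ Icc (0 : ℝ) (1 / 2)) (hs : 0 < s) (hs1 : s ≤ 1) :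
    (pt m y s, (0 : ℝ)) ∉ ZM (m + 1) := by
  rintro ⟨-, -, h | ⟨i, hi⟩⟩
  · exact lt_irrefl _ h
  · have hi' : pt m y s i = 1 ∨ pt m y s i = -1 := hi
    by_cases h0 : i = 0
    · subst h0
      rw [pt_zero] at hi'
      rcases hi' with h | h <;> linarith
    · by_cases h1 : i = 1
      · subst h1
        rw [pt_one] at hi'
        rcases hi' with h | h <;> linarith [hy.1, hy.2]
      · rw [pt_other m _ _ h0 h1] at hi'
        rcases hi' with h | h <;> norm_num at h

/-- The lower bound in the model. -/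
theorem not_pcmp_two (m : ℕ) : ¬ PCmp 2 (ZM (m + 1)) := by
  classical
  intro h
  have hp : (pt m 0 0, (0 : ℝ)) ∈ ZM (m + 1) :=
    pt_mem m ⟨le_rfl, by norm_num⟩ ⟨le_rfl, by norm_num⟩ ⟨le_rfl, by norm_num⟩ (Or.inr rfl)
  have hG : IsClosed {z : (Fin (m + 2) → ℝ) × ℝ | 1 / 2 ≤ z.1 1} :=
    isClosed_le continuous_const (by fun_prop)
  have hpG : (pt m 0 0, (0 : ℝ)) ∉ {z : (Fin (m + 2) → ℝ) × ℝ | 1 / 2 ≤ z.1 1} := by
    intro hc
    have hc' : (1 : ℝ) / 2 ≤ pt m 0 0 1 := hc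
    rw [pt_one] at hc'
    norm_num at hc'
  obtain ⟨U, V, hU, hV, hUV, hpU, hGV, hS⟩ := h _ hp _ hG hpG
  -- the left side
  obtain ⟨ε₀, hε₀, hballU⟩ := Metric.isOpen_iff.mp hU _ hpU
  set ε : ℝ := min ε₀ 1 with hεdef
  have hε : 0 < ε := by positivity
  have hε1 : ε ≤ 1 := min_le_right _ _
  have hleft : ∀ s t : ℝ, s ∈ Icc (0 : ℝ) (ε / 2) → t ∈ Icc (0 : ℝ) (ε / 2) →
      (pt m 0 s, t) ∈ U := by
    intro s t hs ht
    apply hballU
    rw [Metric.mem_ball]
    have h1 : dist (pt m 0 s) (pt m 0 0) ≤ |s - 0| := pt_dist m 0 s 0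
    have h2 : ε ≤ ε₀ := min_le_left _ _
    refine max_lt ?_ ?_
    · refine h1.trans_lt ?_
      rw [sub_zero, abs_of_nonneg hs.1]
      linarith [hs.2]
    · show dist t 0 < ε₀
      rw [Real.dist_eq, sub_zero, abs_of_nonneg ht.1]
      linarith [ht.2]
  set s₁ : ℝ := ε / 2 with hs₁
  have hs₁pos : 0 < s₁ := by positivity
  have hs₁1 : s₁ ≤ 1 := by rw [hs₁]; linarith
  -- the segment
  let K0 : Set ((Fin (m + 2) → ℝ) × ℝ) := (fun y : ℝ => (pt m y 0, (0 : ℝ))) '' Icc 0 (1 / 2)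
  have hK0 : IsCompact K0 := by
    apply isCompact_Icc.image
    have : Continuous (fun y : ℝ => pt m y 0) :=
      (pt_cont m).comp (continuous_id.prodMk continuous_const)
    fun_prop
  have hKc : IsCompact (K0 \ (U ∪ V)) := hK0.diff (hU.union hV)
  have hK0Z : K0 ⊆ ZM (m + 1) := by
    rintro _ ⟨y, hy, rfl⟩
    exact pt_mem m hy ⟨le_rfl, by norm_num⟩ ⟨le_rfl, by norm_num⟩ (Or.inr rfl)
  have hGq : IsClosed {z : (Fin (m + 2) → ℝ) × ℝ | z.1 0 ≤ 1 - s₁} :=
    isClosed_le (by fun_prop) continuous_const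
  have hq : ∀ q : ↥(K0 \ (U ∪ V)), ∃ O O' : Set ((Fin (m + 2) → ℝ) × ℝ), IsOpen O ∧ IsOpen O' ∧
      O ∩ O' ∩ (ZM (m + 1) \ (U ∪ V)) = ∅ ∧ q.1 ∈ O ∧
      {z : (Fin (m + 2) → ℝ) × ℝ | z.1 0 ≤ 1 - s₁} ∩ (ZM (m + 1) \ (U ∪ V)) ⊆ O' ∧
      IsCompact ((ZM (m + 1) \ (U ∪ V)) \ (O ∪ O')) := by
    rintro ⟨q, hqK, hqUV⟩
    have hqS : q ∈ ZM (m + 1) \ (U ∪ V) := ⟨hK0Z hqK, hqUV⟩
    refine hS q hqS _ hGq ?_
    obtain ⟨y, hy, rfl⟩ := hqK
    intro hc
    have hc' : pt m y 0 0 ≤ 1 - s₁ := hc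
    rw [pt_zero] at hc'
    linarith
  choose O O' hO hO' hOO' hqO hGO' hTc using hq
  obtain ⟨F, hF⟩ := hKc.elim_finite_subcover O hO (fun q hq => mem_iUnion.mpr ⟨⟨q, hq⟩, hqO ⟨q, hq⟩⟩)
  -- neighbourhood of the segment
  have hopen1 : IsOpen (U ∪ V ∪ ⋃ q ∈ F, O q) :=
    (hU.union hV).union (isOpen_biUnion fun q _ => hO q)
  have hsub1 : K0 ⊆ U ∪ V ∪ ⋃ q ∈ F, O q := by
    intro z hz
    by_cases hzUV : z ∈ U ∪ V
    · exact Or.inl hzUV
    · exact Or.inr (hF ⟨hz, hzUV⟩)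
  obtain ⟨δ, hδ, hδsub⟩ := hK0.exists_thickening_subset_open hopen1 hsub1
  have hnear : ∀ y s t : ℝ, y ∈ Icc (0 : ℝ) (1 / 2) → 0 ≤ s → s < δ → 0 ≤ t → t < δ →
      (pt m y s, t) ∈ U ∪ V ∪ ⋃ q ∈ F, O q := by
    intro y s t hy hs0 hs ht0 ht
    apply hδsub
    rw [Metric.mem_thickening_iff]
    refine ⟨(pt m y 0, 0), ⟨y, hy, rfl⟩, ?_⟩
    refine max_lt ?_ ?_
    · refine (pt_dist m y s 0).trans_lt ?_
      rw [sub_zero, abs_of_nonneg hs0]
      exact hs
    · show dist t 0 < δ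
      rw [Real.dist_eq, sub_zero, abs_of_nonneg ht0]
      exact ht
  -- the compact set `T`
  let T : Set ((Fin (m + 2) → ℝ) × ℝ) := ⋃ q ∈ F, (ZM (m + 1) \ (U ∪ V)) \ (O q ∪ O' q)
  have hT : IsCompact T := F.isCompact_biUnion fun q _ => hTc q
  let K1 : Set ((Fin (m + 2) → ℝ) × ℝ) :=
    (fun z : ℝ × ℝ => (pt m z.1 z.2, (0 : ℝ))) '' (Icc (0 : ℝ) (1 / 2) ×ˢ Icc δ s₁)
  have hK1 : IsCompact K1 := by
    apply (isCompact_Icc.prod isCompact_Icc).image
    have := pt_cont m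
    fun_prop
  have hK1T : K1 ⊆ Tᶜ := by
    rintro _ ⟨⟨y, s⟩, ⟨hy, hs⟩, rfl⟩ hc
    simp only [T, mem_iUnion] at hc
    obtain ⟨q, -, ⟨hcZ, -⟩, -⟩ := hc
    exact pt_notMem m hy (hδ.trans_le hs.1) (hs.2.trans hs₁1) hcZ
  obtain ⟨δ', hδ', hδsub'⟩ := hK1.exists_thickening_subset_open hT.isClosed.isOpen_compl hK1T
  -- the time
  let t : ℝ := min (min (δ / 2) (δ' / 2)) s₁
  have htpos : 0 < t := by positivity
  have htδ : t < δ := by
    have : t ≤ δ / 2 := (min_le_left _ _).trans (min_le_left _ _)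
    linarith
  have htδ' : t < δ' := by
    have : t ≤ δ' / 2 := (min_le_left _ _).trans (min_le_right _ _)
    linarith
  have hts : t ≤ s₁ := min_le_right _ _
  have ht2 : t ≤ 2 := by linarith
  have hTfar : ∀ y s : ℝ, y ∈ Icc (0 : ℝ) (1 / 2) → s ∈ Icc δ s₁ → (pt m y s, t) ∉ T := by
    intro y s hy hs
    have : (pt m y s, t) ∈ Tᶜ := by
      apply hδsub'
      rw [Metric.mem_thickening_iff]
      refine ⟨(pt m y s, 0), ⟨(y, s), ⟨hy, hs⟩, rfl⟩, ?_⟩
      refine max_lt ?_ ?_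
      · show dist (pt m y s) (pt m y s) < δ'
        rw [dist_self]; exact hδ'
      · show dist t 0 < δ'
        rw [Real.dist_eq, sub_zero, abs_of_nonneg htpos.le]
        exact htδ'
    exact this
  -- the rectangle
  let e : ℝ × ℝ → (Fin (m + 2) → ℝ) × ℝ := fun z => (pt m z.1 z.2, t)
  have he : Continuous e := (pt_cont m).prodMk continuous_const
  let R : Set (ℝ × ℝ) := Icc (0 : ℝ) (1 / 2) ×ˢ Icc (0 : ℝ) s₁
  have hR : IsClosed R := isClosed_Icc.prod isClosed_Icc
  have heZ : ∀ z ∈ R, e z ∈ ZM (m + 1) := fun z hz =>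
    pt_mem m hz.1 ⟨hz.2.1, hz.2.2.trans hs₁1⟩ ⟨htpos.le, ht2⟩ (Or.inl htpos)
  let RU : Set (ℝ × ℝ) := R ∩ (e ⁻¹' U)ᶜ
  let RV : Set (ℝ × ℝ) := R ∩ (e ⁻¹' V)ᶜ
  have hRU : IsClosed RU := hR.inter (hU.preimage he).isClosed_compl
  have hRV : IsClosed RV := hR.inter (hV.preimage he).isClosed_compl
  have hleft' : ∀ s ∈ Icc (0 : ℝ) s₁, ((0 : ℝ), s) ∈ R ∧ e (0, s) ∈ U := by
    intro s hs
    exact ⟨⟨⟨le_rfl, by norm_num⟩, hs⟩, hleft s t hs ⟨htpos.le, hts⟩⟩
  have hright' : ∀ s ∈ Icc (0 : ℝ) s₁, ((1 / 2 : ℝ), s) ∈ R ∧ e (1 / 2, s) ∈ V := by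
    intro s hs
    have h1 : ((1 / 2 : ℝ), s) ∈ R := ⟨⟨by norm_num, le_rfl⟩, hs⟩
    refine ⟨h1, hGV ⟨?_, heZ _ h1⟩⟩
    show (1 : ℝ) / 2 ≤ pt m (1 / 2) s 1
    rw [pt_one]
  have hdisj : ∀ z ∈ R, e z ∈ U → e z ∉ V := by
    intro z hz h1 h2
    have : e z ∈ U ∩ V ∩ ZM (m + 1) := ⟨⟨h1, h2⟩, heZ z hz⟩
    rw [hUV] at this
    exact this
  have hRUne : RU.Nonempty := by
    have := hright' 0 ⟨le_rfl, hs₁pos.le⟩
    exact ⟨_, this.1, fun hc => hdisj _ this.1 hc this.2⟩
  have hRVne : RV.Nonempty := by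
    have := hleft' 0 ⟨le_rfl, hs₁pos.le⟩
    exact ⟨_, this.1, fun hc => hdisj _ this.1 this.2 hc⟩
  let φ₁ : ℝ × ℝ → ℝ := fun z => Metric.infDist z RU - Metric.infDist z RV
  have hφ₁ : Continuous φ₁ := (Metric.continuous_infDist_pt _).sub (Metric.continuous_infDist_pt _)
  have hφ₁U : ∀ z ∈ R, e z ∈ U → 0 < φ₁ z := by
    intro z hz hzU
    have h1 : 0 < Metric.infDist z RU :=
      (hRU.notMem_iff_infDist_pos hRUne).mp (fun hc => hc.2 hzU)
    have h2 : Metric.infDist z RV = 0 := Metric.infDist_zero_of_mem ⟨hz, hdisj z hz hzU⟩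
    show 0 < Metric.infDist z RU - Metric.infDist z RV
    rw [h2, sub_zero]
    exact h1
  have hφ₁V : ∀ z ∈ R, e z ∈ V → φ₁ z < 0 := by
    intro z hz hzV
    have h1 : 0 < Metric.infDist z RV :=
      (hRV.notMem_iff_infDist_pos hRVne).mp (fun hc => hc.2 hzV)
    have h2 : Metric.infDist z RU = 0 :=
      Metric.infDist_zero_of_mem ⟨hz, fun hc => hdisj z hz hc hzV⟩
    show Metric.infDist z RU - Metric.infDist z RV < 0
    rw [h2, zero_sub]
    linarith
  -- the second function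
  let A : Set (ℝ × ℝ) := (R ∩ ⋃ q ∈ F, (e ⁻¹' (U ∪ V ∪ O' q))ᶜ) ∪ (Icc (0 : ℝ) (1 / 2) ×ˢ {0})
  let B : Set (ℝ × ℝ) := (R ∩ (e ⁻¹' (U ∪ V ∪ ⋃ q ∈ F, O q))ᶜ) ∪ (Icc (0 : ℝ) (1 / 2) ×ˢ {s₁})
  have hA : IsClosed A := by
    refine IsClosed.union (hR.inter ?_) (isClosed_Icc.prod isClosed_singleton)
    refine F.finite_toSet.isClosed_biUnion fun q _ => ?_
    exact (((hU.union hV).union (hO' q)).preimage he).isClosed_compl
  have hB : IsClosed B :=
    (hR.inter (hopen1.preimage he).isClosed_compl).union (isClosed_Icc.prod isClosed_singleton)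
  have hAB : ∀ z, z ∈ A → z ∉ B := by
    rintro ⟨y, s⟩ hzA hzB
    have hyR : y ∈ Icc (0 : ℝ) (1 / 2) := by
      rcases hzA with hzA | hzA
      · exact hzA.1.1
      · exact hzA.1
    rcases hzA with ⟨hzR, hzA⟩ | ⟨-, hzA⟩
    · simp only [mem_iUnion, exists_prop] at hzA
      obtain ⟨q, hqF, hzq⟩ := hzA
      have hzq' : e (y, s) ∉ U ∪ V ∪ O' q := hzq
      rw [mem_union, not_or] at hzq'
      have hzS : e (y, s) ∈ ZM (m + 1) \ (U ∪ V) := ⟨heZ _ hzR, hzq'.1⟩
      rcases hzB with ⟨-, hzB⟩ | ⟨-, hzB⟩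
      · have hzB' : e (y, s) ∉ U ∪ V ∪ ⋃ q ∈ F, O q := hzB
        have hzO : e (y, s) ∉ O q := by
          intro hc
          exact hzB' (Or.inr (mem_biUnion hqF hc))
        have hzT : e (y, s) ∈ T := by
          simp only [T, mem_iUnion]
          refine ⟨q, hqF, hzS, ?_⟩
          rw [mem_union, not_or]
          exact ⟨hzO, hzq'.2⟩
        by_cases hsδ : s < δ
        · exact hzB' (hnear y s t hyR hzR.2.1 hsδ htpos.le htδ)
        · exact hTfar y s hyR ⟨not_lt.mp hsδ, hzR.2.2⟩ hzT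
      · have hs : s = s₁ := hzB
        apply hzq'.2
        apply hGO' q
        refine ⟨?_, hzS⟩
        show pt m y s 0 ≤ 1 - s₁
        rw [pt_zero, hs]
    · have hs : s = 0 := hzA
      rcases hzB with ⟨-, hzB⟩ | ⟨-, hzB⟩
      · apply hzB
        exact hnear y s t hyR hs.ge (by rw [hs]; exact hδ) htpos.le htδ
      · have hs' : s = s₁ := hzB
        rw [hs] at hs'
        exact hs₁pos.ne hs'
  have hbot : ∀ y ∈ Icc (0 : ℝ) (1 / 2), (y, (0 : ℝ)) ∈ A := fun y hy => Or.inr ⟨hy, rfl⟩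
  have htop : ∀ y ∈ Icc (0 : ℝ) (1 / 2), (y, s₁) ∈ B := fun y hy => Or.inr ⟨hy, rfl⟩
  have hAne : A.Nonempty := ⟨_, hbot 0 ⟨le_rfl, by norm_num⟩⟩
  have hBne : B.Nonempty := ⟨_, htop 0 ⟨le_rfl, by norm_num⟩⟩
  let φ₂ : ℝ × ℝ → ℝ := fun z => Metric.infDist z A - Metric.infDist z B
  have hφ₂ : Continuous φ₂ := (Metric.continuous_infDist_pt _).sub (Metric.continuous_infDist_pt _)
  have hφ₂A : ∀ z ∈ A, φ₂ z < 0 := by
    intro z hz
    have h1 : 0 < Metric.infDist z B := (hB.notMem_iff_infDist_pos hBne).mp (hAB z hz)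
    have h2 : Metric.infDist z A = 0 := Metric.infDist_zero_of_mem hz
    show Metric.infDist z A - Metric.infDist z B < 0
    rw [h2, zero_sub]
    linarith
  have hφ₂B : ∀ z ∈ B, 0 < φ₂ z := by
    intro z hz
    have h1 : 0 < Metric.infDist z A :=
      (hA.notMem_iff_infDist_pos hAne).mp (fun hc => hAB z hc hz)
    have h2 : Metric.infDist z B = 0 := Metric.infDist_zero_of_mem hz
    show 0 < Metric.infDist z A - Metric.infDist z B
    rw [h2, sub_zero]
    exact h1
  have hcover : ∀ z ∈ R, e z ∉ U → e z ∉ V → z ∈ A ∪ B := by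
    intro z hz h1 h2
    by_cases hzO : e z ∈ ⋃ q ∈ F, O q
    · left; left
      refine ⟨hz, ?_⟩
      simp only [mem_iUnion, exists_prop] at hzO ⊢
      obtain ⟨q, hqF, hzq⟩ := hzO
      refine ⟨q, hqF, ?_⟩
      rintro ((hc | hc) | hc)
      · exact h1 hc
      · exact h2 hc
      · have : e z ∈ O q ∩ O' q ∩ (ZM (m + 1) \ (U ∪ V)) := by
          refine ⟨⟨hzq, hc⟩, heZ z hz, ?_⟩
          rw [mem_union, not_or]
          exact ⟨h1, h2⟩
        rw [hOO' q] at this
        exact this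
    · right; left
      refine ⟨hz, ?_⟩
      rintro ((hc | hc) | hc)
      · exact h1 hc
      · exact h2 hc
      · exact hzO hc
  have hcF : Continuous (fun z : ℝ × ℝ => (⟨φ₂ z, -φ₁ z⟩ : ℂ)) := by
    have : (fun z : ℝ × ℝ => (⟨φ₂ z, -φ₁ z⟩ : ℂ)) =
        fun z => ((φ₂ z : ℝ) : ℂ) + ((-φ₁ z : ℝ) : ℂ) * Complex.I := by
      ext z
      rw [Complex.mk_eq_add_mul_I]
    rw [this]
    exact (Complex.continuous_ofReal.comp hφ₂).add
      ((Complex.continuous_ofReal.comp hφ₁.neg).mul continuous_const)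
  obtain ⟨y, hy, s, hs, hzero⟩ := miranda hcF (a := 0) (b := 1 / 2) (c := 0) (d := s₁)
    (by norm_num) hs₁pos.le
    (fun y hy => hφ₂A _ (hbot y hy)) (fun y hy => hφ₂B _ (htop y hy))
    (fun s hs => by
      have := hφ₁U _ (hleft' s hs).1 (hleft' s hs).2
      show -φ₁ (0, s) < 0
      linarith)
    (fun s hs => by
      have := hφ₁V _ (hright' s hs).1 (hright' s hs).2
      show 0 < -φ₁ (1 / 2, s)
      linarith)
  have hz1 : φ₂ (y, s) = 0 := congrArg Complex.re hzero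
  have hz2 : -φ₁ (y, s) = 0 := congrArg Complex.im hzero
  have hzR : (y, s) ∈ R := ⟨hy, hs⟩
  have n1 : e (y, s) ∉ U := fun hc => by
    have := hφ₁U _ hzR hc
    linarith
  have n2 : e (y, s) ∉ V := fun hc => by
    have := hφ₁V _ hzR hc
    linarith
  rcases hcover _ hzR n1 n2 with hc | hc
  · have := hφ₂A _ hc
    linarith
  · have := hφ₂B _ hc
    linarith

/-! The final statement. -/

open Classical in
/-- The small inductive compactness degree, with values in the integers together with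
infinity. -/
noncomputable def cmp (X : Type u) [TopologicalSpace X] : WithTop ℤ :=
  if h : ∃ k : ℕ, CmpLE k X then (((Nat.find h : ℕ) : ℤ) - 1 : ℤ) else ⊤

/-- The open face: the last coordinate is `1`, all the others lie strictly between `-1`
and `1`. -/
def openFace (n : ℕ) : Set (Fin n → ℝ) :=
  {x | ∀ i : Fin n, if (i : ℕ) + 1 = n then x i = 1 else x i ∈ Ioo (-1 : ℝ) 1}

/-- The cube `[-1,1]^n` with the open face removed. -/
def Z (n : ℕ) : Set (Fin n → ℝ) :=
  {x | (∀ i, x i ∈ Icc (-1 : ℝ) 1) ∧ x ∉ openFace n}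

section

variable {E : Type u} [PseudoMetricSpace E]

lemma PCmp.succ : ∀ (k : ℕ) {Y : Set E}, PCmp k Y → PCmp (k + 1) Y := by
  intro k
  induction k with
  | zero => intro Y h; exact PCmp.of_isCompact 1 h
  | succ k ih =>
    intro Y h p hp G hG hpG
    obtain ⟨U, V, hU, hV, hUV, hpU, hGV, hk⟩ := h p hp G hG hpG
    exact ⟨U, V, hU, hV, hUV, hpU, hGV, ih hk⟩

end

/-- the coordinate change -/
def chg (k : ℕ) (x : Fin (k + 1) → ℝ) : (Fin k → ℝ) × ℝ :=
  (fun i => x i.castSucc, 1 - x (Fin.last k))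

/-- its inverse -/
def chgInv (k : ℕ) (z : (Fin k → ℝ) × ℝ) : Fin (k + 1) → ℝ :=
  Fin.snoc (α := fun _ => ℝ) z.1 (1 - z.2)

lemma chgInv_chg (k : ℕ) (x : Fin (k + 1) → ℝ) : chgInv k (chg k x) = x := by
  funext i
  refine Fin.lastCases ?_ (fun i => ?_) i
  · simp [chgInv, chg]
  · simp [chgInv, chg]

lemma chg_chgInv (k : ℕ) (z : (Fin k → ℝ) × ℝ) : chg k (chgInv k z) = z := by
  refine Prod.ext ?_ ?_
  · funext i
    simp [chgInv, chg]
  · simp [chgInv, chg]

lemma chg_cont (k : ℕ) : Continuous (chg k) := by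
  unfold chg
  fun_prop

lemma chgInv_cont (k : ℕ) : Continuous (chgInv k) := by
  refine continuous_pi fun i => ?_
  refine Fin.lastCases ?_ (fun i => ?_) i
  · simp only [chgInv, Fin.snoc_last]
    fun_prop
  · simp only [chgInv, Fin.snoc_castSucc]
    fun_prop

lemma chg_embedding (k : ℕ) : IsEmbedding (chg k) :=
  Function.LeftInverse.isEmbedding (f := chgInv k) (chgInv_chg k) (chgInv_cont k) (chg_cont k)

lemma mem_Z_iff (m : ℕ) (x : Fin (m + 2) → ℝ) : x ∈ Z (m + 2) ↔ chg (m + 1) x ∈ ZM m := by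
  constructor
  · rintro ⟨h1, h2⟩
    refine ⟨fun i => h1 i.castSucc, ?_, ?_⟩
    · have := h1 (Fin.last (m + 1))
      show 1 - x (Fin.last (m + 1)) ∈ Icc (0 : ℝ) 2
      constructor <;> linarith [this.1, this.2]
    · by_contra hc
      push Not at hc
      obtain ⟨hc1, hc2⟩ := hc
      apply h2
      intro i
      refine Fin.lastCases ?_ (fun i => ?_) i
      · have h3 := (h1 (Fin.last (m + 1))).2
        have h4 : 1 - x (Fin.last (m + 1)) ≤ 0 := hc1
        rw [if_pos (by simp)]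
        linarith
      · have hi : ¬ ((i.castSucc : Fin (m + 2)) : ℕ) + 1 = m + 2 := by
          have := i.2
          simp only [Fin.val_castSucc]
          omega
        rw [if_neg hi]
        have h3 := h1 i.castSucc
        have h4 : x i.castSucc ≠ 1 ∧ x i.castSucc ≠ -1 := hc2 i
        exact ⟨lt_of_le_of_ne h3.1 (Ne.symm h4.2), lt_of_le_of_ne h3.2 h4.1⟩
  · rintro ⟨h1, h2, h3⟩
    have h2' : 1 - x (Fin.last (m + 1)) ∈ Icc (0 : ℝ) 2 := h2
    refine ⟨fun i => ?_, ?_⟩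
    · refine Fin.lastCases ?_ (fun i => ?_) i
      · constructor <;> linarith [h2'.1, h2'.2]
      · exact h1 i
    · intro hc
      rcases h3 with h3 | ⟨i, h3⟩
      · have h4 := hc (Fin.last (m + 1))
        rw [if_pos (by simp)] at h4
        have h5 : 0 < 1 - x (Fin.last (m + 1)) := h3
        linarith
      · have h4 := hc i.castSucc
        have hi : ¬ ((i.castSucc : Fin (m + 2)) : ℕ) + 1 = m + 2 := by
          have := i.2
          simp only [Fin.val_castSucc]
          omega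
        rw [if_neg hi] at h4
        have h5 : x i.castSucc = 1 ∨ x i.castSucc = -1 := h3
        rcases h5 with h5 | h5
        · exact h4.2.ne h5
        · exact h4.1.ne h5.symm

lemma cmpLE_Z_iff (k m : ℕ) : CmpLE k (Z (m + 2)) ↔ PCmp k (ZM m) := by
  have he : IsEmbedding (fun x : Z (m + 2) => chg (m + 1) x.1) :=
    (chg_embedding (m + 1)).comp IsEmbedding.subtypeVal
  rw [cmpLE_iff k he]
  have : range (fun x : Z (m + 2) => chg (m + 1) x.1) = ZM m := by
    ext z
    constructor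
    · rintro ⟨x, rfl⟩
      exact (mem_Z_iff m x.1).mp x.2
    · intro hz
      refine ⟨⟨chgInv (m + 1) z, ?_⟩, chg_chgInv _ z⟩
      rw [mem_Z_iff, chg_chgInv]
      exact hz
  rw [this]

/-- The small inductive compactness degree of the `n`-cube with one open face removed is `2`
for every `n ≥ 3`. -/
theorem result (n : ℕ) (hn : 3 ≤ n) : cmp (Z n) = 2 := by
  classical
  obtain ⟨m, rfl⟩ : ∃ m, n = m + 3 := ⟨n - 3, by omega⟩
  have h3 : CmpLE 3 (Z (m + 3)) := (cmpLE_Z_iff 3 (m + 1)).mpr (pcmp_three (m + 1))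
  have h2 : ¬ CmpLE 2 (Z (m + 3)) := fun h => not_pcmp_two m ((cmpLE_Z_iff 2 (m + 1)).mp h)
  have h1 : ¬ CmpLE 1 (Z (m + 3)) := fun h =>
    h2 ((cmpLE_Z_iff 2 (m + 1)).mpr (PCmp.succ 1 ((cmpLE_Z_iff 1 (m + 1)).mp h)))
  have h0 : ¬ CmpLE 0 (Z (m + 3)) := fun h =>
    h1 ((cmpLE_Z_iff 1 (m + 1)).mpr (PCmp.succ 0 ((cmpLE_Z_iff 0 (m + 1)).mp h)))
  have hex : ∃ k : ℕ, CmpLE k (Z (m + 3)) := ⟨3, h3⟩
  have hfind : Nat.find hex = 3 := by
    rw [Nat.find_eq_iff]
    refine ⟨h3, fun k hk => ?_⟩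
    interval_cases k
    · exact h0
    · exact h1
    · exact h2
  unfold cmp
  rw [dif_pos hex, hfind]
  norm_num

end Pool.Agent.Results.MP_3364cd_gt.CmpCubeOpenFace
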